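import Pool.Agent.NLV.Bds

/-!
# NLV-Arith (V10): the final inequality

The parameters are bounded by `bounds` in terms of `R`, and `R`, `q` and the numerical constant are at most `q ^ R`.  The
product of the three factors is at most `q ^ (355 R)`, while `z ^ M` is at least `q ^ (3000 n M)`, hence at least
`q ^ (750 R)`.
-/

namespace Pool.Agent.NLV

private theorem Arith_core {q R P S Q J h n f : ℕ} (hq : 3 ≤ q) (hR : 33 * n ≤ R) (hn : 2 ≤ n) (hP : P = 2 * R)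
    (hS : S ≤ 42 * R) (hQ : Q ≤ 43 * R) (hJ : J ≤ 40 * R) (hh : h ≤ q) (hf : f ≤ q) :
    (P * (q ^ (2 * Q) * (P * (Q * q ^ (2 * Q))))) * (S * (P * (P * (Q * q ^ (2 * Q))) * S * q ^ (2 * Q))) *
      (2 * q * (P + S) + 2 * (q * J) + h * n + n * f) ≤ q ^ (355 * R) := by
  have hnR : n ≤ R := by omega
  have hY : q ^ (2 * Q) ≤ q ^ (86 * R) := Nat.pow_le_pow_right (by omega) (by omega)
  obtain ⟨Y, hYdef⟩ : ∃ Y, Y = q ^ (86 * R) := ⟨_, rfl⟩
  obtain ⟨X, hXdef⟩ : ∃ X, X = q ^ R := ⟨_, rfl⟩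
  rw [← hYdef] at hY
  have h1 : P * (q ^ (2 * Q) * (P * (Q * q ^ (2 * Q)))) ≤ (2 * R) * (Y * ((2 * R) * ((43 * R) * Y))) := by
    rw [hP]
    gcongr
  have h2 : S * (P * (P * (Q * q ^ (2 * Q))) * S * q ^ (2 * Q)) ≤
      (42 * R) * ((2 * R) * ((2 * R) * ((43 * R) * Y)) * (42 * R) * Y) := by
    rw [hP]
    gcongr
  have h3 : 2 * q * (P + S) + 2 * (q * J) + h * n + n * f ≤ 170 * (q * R) := by
    have a1 : 2 * q * (P + S) ≤ 2 * q * (44 * R) := Nat.mul_le_mul_left _ (by omega)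
    have a2 : q * J ≤ q * (40 * R) := Nat.mul_le_mul_left _ hJ
    have a3 : h * n ≤ q * R := Nat.mul_le_mul hh hnR
    have a4 : n * f ≤ R * q := Nat.mul_le_mul hnR hf
    have b1 : 2 * q * (44 * R) = 88 * (q * R) := by ring
    have b2 : q * (40 * R) = 40 * (q * R) := by ring
    have b3 : R * q = q * R := mul_comm _ _
    omega
  have hRX : R ≤ X := by
    rw [hXdef]
    exact (Nat.lt_pow_self (by omega)).le
  have hqX : q ≤ X := by
    rw [hXdef]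
    exact Nat.le_self_pow (by omega) q
  have hcX : 8871649920 ≤ X := by
    have c1 : (8871649920 : ℕ) ≤ 3 ^ 66 := by norm_num
    have c2 : 3 ^ 66 ≤ 3 ^ R := Nat.pow_le_pow_right (by norm_num) (by omega)
    have c3 : 3 ^ R ≤ q ^ R := Nat.pow_le_pow_left hq R
    rw [hXdef]
    exact c1.trans (c2.trans c3)
  have h4 := Nat.mul_le_mul (Nat.mul_le_mul h1 h2) h3
  have h5 : (2 * R) * (Y * ((2 * R) * ((43 * R) * Y))) *
      ((42 * R) * ((2 * R) * ((2 * R) * ((43 * R) * Y)) * (42 * R) * Y)) * (170 * (q * R)) =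
        8871649920 * (R ^ 9 * q * Y ^ 4) := by
    ring
  have h6 : 8871649920 * (R ^ 9 * q * Y ^ 4) ≤ X * (X ^ 9 * X * Y ^ 4) := by
    gcongr
  have h7 : X * (X ^ 9 * X * Y ^ 4) = q ^ (355 * R) := by
    have e1 : X * (X ^ 9 * X * Y ^ 4) = X ^ 11 * Y ^ 4 := by ring
    rw [e1, hXdef, hYdef, ← pow_mul, ← pow_mul, ← pow_add]
    congr 1
    ring
  exact h4.trans (h5.le.trans (h6.trans h7.le))

theorem arith1 {p : VP} {n2 : ℕ} (hp : VGood p n2) {z : ℤ} (hz : ((p.q ^ (3000 * p.n) : ℕ) : ℤ) ≤ z) :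
    (p.P * ((p.q : ℤ) ^ (2 * p.Q) * (p.P * (p.Q * (p.q : ℤ) ^ (2 * p.Q))))) *
      (p.S * (p.P * (p.P * (p.Q * (p.q : ℤ) ^ (2 * p.Q))) * p.S * (p.q : ℤ) ^ (2 * p.Q))) *
      (2 * p.q * (p.P + p.S) + 2 * (p.q * p.J) + p.h * p.n + p.n * p.f) < z ^ p.M := by
  obtain ⟨hR, hJ, hS, hQ, -, hh, -, hM⟩ := bounds hp
  obtain ⟨hq3, -, -, -, hn, -, -, -⟩ := hp
  have hf : p.f ≤ p.q := by
    have h1 : p.h = p.e + p.f := rfl
    omega
  have h1 := Arith_core hq3 hR hn (P := p.P) rfl hS hQ hJ hh hf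
  have h2 : (p.P * ((p.q : ℤ) ^ (2 * p.Q) * (p.P * (p.Q * (p.q : ℤ) ^ (2 * p.Q))))) *
      (p.S * (p.P * (p.P * (p.Q * (p.q : ℤ) ^ (2 * p.Q))) * p.S * (p.q : ℤ) ^ (2 * p.Q))) *
      (2 * p.q * (p.P + p.S) + 2 * (p.q * p.J) + p.h * p.n + p.n * p.f) ≤ (p.q : ℤ) ^ (355 * p.R) := by
    exact_mod_cast h1
  have h3 : (p.q : ℤ) ^ (355 * p.R) < (p.q : ℤ) ^ (3000 * p.n * p.M) := by
    refine pow_lt_pow_right₀ ?_ ?_
    · exact_mod_cast (by omega : 1 < p.q)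
    · have e1 : 3000 * p.n * p.M = 750 * (4 * p.n * p.M) := by ring
      rw [e1]
      omega
  have h4 : (p.q : ℤ) ^ (3000 * p.n * p.M) ≤ z ^ p.M := by
    have h5 := pow_le_pow_left₀ (Nat.cast_nonneg _) hz p.M
    rw [pow_mul]
    refine le_trans (le_of_eq ?_) h5
    push_cast
    rfl
  exact lt_of_le_of_lt h2 (lt_of_lt_of_le h3 h4)

end Pool.Agent.NLV
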