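import Pool.Agent.NLV.Defs

/-!
# NLV-Bds: linear bounds for the parameters
-/

namespace Pool.Agent.NLV

theorem bounds {p : VP} {n2 : ℕ} (hp : VGood p n2) :
    33 * p.n ≤ p.R ∧ p.J ≤ 40 * p.R ∧ p.S ≤ 42 * p.R ∧ p.Q ≤ 43 * p.R ∧ p.S + p.R ≤ n2 ∧ p.h ≤ p.q ∧
      2 * p.n * p.M ≤ p.R ∧ p.R ≤ 4 * p.n * p.M := by
  obtain ⟨hq3, he, hf, hq, hn, hn2, hR, hJ⟩ := hp
  have hJ2 : 3 * p.J ≤ 2 * n2 := by
    have h3 : p.q * (3 * p.J) ≤ p.q * (2 * n2) := by
      have h4 : p.f * p.n ≤ p.f * n2 := Nat.mul_le_mul_left _ (by omega)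
      have h5 : p.h * n2 = p.e * n2 + p.f * n2 := by
        unfold VP.h
        rw [add_mul]
      have h6 : 3 * (2 * p.h) * n2 ≤ 4 * p.q * n2 := Nat.mul_le_mul_right _ (by omega)
      have h7 : p.q * (3 * p.J) = 3 * (p.q * p.J) := by ring
      have h8 : p.q * (2 * n2) = 2 * (p.q * n2) := by ring
      have h9 : 3 * (2 * p.h) * n2 = 6 * (p.h * n2) := by ring
      have h10 : 4 * p.q * n2 = 4 * (p.q * n2) := by ring
      omega
    exact Nat.le_of_mul_le_mul_left h3 (by omega)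
  have hP : p.P = 2 * p.R := rfl
  have hS : p.S = p.P + p.J := rfl
  have hQ : p.Q = p.S + p.R := rfl
  have hM : p.M = p.R / (2 * p.n) := rfl
  have h1 : 33 * p.n ≤ p.R := by omega
  have h2 : 2 * p.n * p.M ≤ p.R := by
    rw [hM]
    exact Nat.mul_div_le _ _
  have h3 : p.R < 2 * p.n * (p.M + 1) := by
    rw [hM]
    exact Nat.lt_mul_div_succ _ (by omega)
  have h4 : 1 ≤ p.M := by
    rw [hM]
    exact (Nat.one_le_div_iff (by omega)).2 (by omega)
  have h5 : p.n * 1 ≤ p.n * p.M := Nat.mul_le_mul_left _ h4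
  have e1 : 2 * p.n * (p.M + 1) = 2 * (p.n * p.M) + 2 * p.n := by ring
  have e2 : 4 * p.n * p.M = 4 * (p.n * p.M) := by ring
  refine ⟨h1, by omega, by omega, by omega, by omega, by omega, h2, by omega⟩

end Pool.Agent.NLV
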