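import Pool.Agent.NLV.Defs

/-!
# NLV-Coef (V1): the coefficients `c_m`

PLAN.  `cZ_cast`: termwise, `NLG.KZ_cast` twice, `2 m = 2 (m - n b) + 2 b + 2 (n - 1) b` (`n b ≤ m` because
`b < m / n + 1`).  `cQ_zero`, `cZ_zero`: one term, `kap_zero`, `KZ_zero_right`.  `abs_cQ_le`: `|kap ρ m| ≤ 1` for
`|ρ| ≤ 1` (copy the private theorem `Kap_abs_le_one` of `NLG/Kap.lean`), there are `m / n + 1 ≤ m + 1` terms.
`abs_cZ_le`: cast to `ℚ`.  `psi_pow`: in `ℚ⟦X⟧` put `K ρ = mk (kap ρ)`; `NLG.kap_add` gives `K ρ * K σ = K (ρ + σ)`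
(`PowerSeries.coeff_mul`, antidiagonal to range), so `K ρ ^ k = K (k ρ)`, `K 1 = 1 - X`
(`kap 1 0 = 1`, `kap 1 1 = -1`, `kap 1 m = 0` for `m ≥ 2`, from `kap_succ`), `K (h) = (1 - X) ^ h`, `K 0 = 1`, so
`K (-h/q) ^ q * (1 - X) ^ h = K (-h) K h = 1`.  The series `mk (cQ p)` is `K (-h/q) * L`, `L = ∑ kap (f/q) b X ^ (n b)`
(coefficient `if n ∣ m then kap (f/q) (m / n) else 0`), `L` is the image of `K (f/q)` under the ring homomorphism
`X ↦ X ^ n` (`PowerSeries.subst`/`PowerSeries.expand`/`evalNegHom` like; or prove `L ρ * L σ = L (ρ + σ)` directly by coefficients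
in the same way), `L f = (1 - X ^ n) ^ f`.  Then map to `ℝ⟦X⟧` (`PowerSeries.map (algebraMap ℚ ℝ)`).
-/

namespace Pool.Agent.NLV

open Finset Polynomial
open Pool.Agent.NLG (KZ kap)

private theorem Coef_abs_le_one {ρ : ℚ} (h1 : -1 ≤ ρ) (h2 : ρ ≤ 1) (m : ℕ) : |kap ρ m| ≤ 1 := by
  induction m with
  | zero => rw [Pool.Agent.NLG.kap_zero, abs_one]
  | succ m ih =>
    have h := Pool.Agent.NLG.kap_succ ρ m
    have hm : (0 : ℚ) < (m : ℚ) + 1 := by positivity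
    have h3 : ((m : ℚ) + 1) * |kap ρ (m + 1)| = |(m : ℚ) - ρ| * |kap ρ m| := by
      rw [← abs_mul, ← h, abs_mul, abs_of_pos hm]
    have h4 : |(m : ℚ) - ρ| ≤ (m : ℚ) + 1 := by
      rw [abs_le]
      constructor
      · have : (0 : ℚ) ≤ m := by positivity
        linarith
      · linarith
    have h5 : ((m : ℚ) + 1) * |kap ρ (m + 1)| ≤ ((m : ℚ) + 1) * 1 := by
      rw [h3]
      exact mul_le_mul h4 ih (abs_nonneg _) hm.le
    exact le_of_mul_le_mul_left h5 hm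

private theorem Coef_nb {n m b : ℕ} (hb : b ∈ range (m / n + 1)) : n * b ≤ m := by
  have h1 : b ≤ m / n := Nat.lt_succ_iff.1 (mem_range.1 hb)
  exact (Nat.mul_le_mul_left n h1).trans (Nat.mul_div_le m n)

theorem cZ_cast (p : VP) (hq : 1 ≤ p.q) (hn : 1 ≤ p.n) (m : ℕ) :
    (cZ p m : ℚ) = (p.q : ℚ) ^ (2 * m) * cQ p m := by
  unfold cZ cQ
  rw [Int.cast_sum, mul_sum]
  refine sum_congr rfl fun b hb => ?_
  have h1 := Coef_nb hb
  obtain ⟨k, hk⟩ := Nat.exists_eq_add_of_le' hn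
  have h2 : 2 * m = 2 * (m - p.n * b) + (2 * b + 2 * ((p.n - 1) * b)) := by
    rw [hk] at h1 ⊢
    rw [Nat.add_sub_cancel]
    have h3 : (k + 1) * b = k * b + b := by ring
    omega
  rw [h2, pow_add, pow_add, Int.cast_mul, Int.cast_mul, Pool.Agent.NLG.KZ_cast hq,
    Pool.Agent.NLG.KZ_cast hq]
  push_cast
  ring

theorem cQ_zero (p : VP) : cQ p 0 = 1 := by
  unfold cQ
  rw [Nat.zero_div, zero_add, sum_range_one, mul_zero, Nat.sub_zero, Pool.Agent.NLG.kap_zero,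
    Pool.Agent.NLG.kap_zero, mul_one]

theorem cZ_zero (p : VP) (hq : 1 ≤ p.q) : cZ p 0 = 1 := by
  unfold cZ
  rw [Nat.zero_div, zero_add, sum_range_one, mul_zero, Nat.sub_zero,
    Pool.Agent.NLG.KZ_zero_right hq, Pool.Agent.NLG.KZ_zero_right hq, mul_zero, mul_zero, pow_zero,
    mul_one, mul_one]

theorem abs_cQ_le (p : VP) (hq : 1 ≤ p.q) (hh : p.h ≤ p.q) (m : ℕ) : |cQ p m| ≤ m + 1 := by
  have hq0 : (0 : ℚ) < (p.q : ℚ) := by
    have : 0 < p.q := by omega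
    exact_mod_cast this
  have hfh : p.f ≤ p.h := Nat.le_add_left _ _
  have hhq : (p.h : ℚ) ≤ p.q := by exact_mod_cast hh
  have hfq : (p.f : ℚ) ≤ p.q := by exact_mod_cast hfh.trans hh
  have hh0 : (0 : ℚ) ≤ (p.h : ℚ) := Nat.cast_nonneg _
  have hf0 : (0 : ℚ) ≤ (p.f : ℚ) := Nat.cast_nonneg _
  have h1 : ∀ k, |kap (-(p.h : ℚ) / p.q) k| ≤ 1 := by
    refine Coef_abs_le_one ?_ ?_
    · rw [le_div_iff₀ hq0]
      linarith
    · rw [div_le_one hq0]
      linarith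
  have h2 : ∀ k, |kap ((p.f : ℚ) / p.q) k| ≤ 1 := by
    refine Coef_abs_le_one ?_ ?_
    · rw [le_div_iff₀ hq0]
      linarith
    · rw [div_le_one hq0]
      exact hfq
  calc |cQ p m| ≤ ∑ b ∈ range (m / p.n + 1),
        |kap (-(p.h : ℚ) / p.q) (m - p.n * b) * kap ((p.f : ℚ) / p.q) b| := abs_sum_le_sum_abs _ _
    _ ≤ ∑ b ∈ range (m / p.n + 1), (1 : ℚ) := by
      refine sum_le_sum fun b _ => ?_
      rw [abs_mul]
      exact mul_le_one₀ (h1 _) (abs_nonneg _) (h2 _)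
    _ = ((m / p.n + 1 : ℕ) : ℚ) := by
      rw [sum_const, card_range, nsmul_eq_mul, mul_one]
    _ ≤ m + 1 := by
      have h3 : m / p.n + 1 ≤ m + 1 := Nat.succ_le_succ (Nat.div_le_self _ _)
      exact_mod_cast h3

theorem abs_cZ_le (p : VP) (hq : 1 ≤ p.q) (hn : 1 ≤ p.n) (hh : p.h ≤ p.q) (m : ℕ) :
    |cZ p m| ≤ (m + 1) * (p.q : ℤ) ^ (2 * m) := by
  have h1 : |(cZ p m : ℚ)| ≤ (m + 1) * (p.q : ℚ) ^ (2 * m) := by
    have h0 : (0 : ℚ) ≤ (p.q : ℚ) ^ (2 * m) := by positivity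
    rw [cZ_cast p hq hn, abs_mul, abs_of_nonneg h0, mul_comm]
    exact mul_le_mul_of_nonneg_right (abs_cQ_le p hq hh m) h0
  exact_mod_cast h1

/-- the series of `(1 - x) ^ ρ` -/
private noncomputable def Coef_K (ρ : ℚ) : PowerSeries ℚ := PowerSeries.mk fun m => kap ρ m

private theorem Coef_K_mul (ρ σ : ℚ) : Coef_K ρ * Coef_K σ = Coef_K (ρ + σ) := by
  ext n
  rw [PowerSeries.coeff_mul, Finset.Nat.sum_antidiagonal_eq_sum_range_succ
    (fun a b => PowerSeries.coeff a (Coef_K ρ) * PowerSeries.coeff b (Coef_K σ))]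
  unfold Coef_K
  rw [PowerSeries.coeff_mk, Pool.Agent.NLG.kap_add]
  refine sum_congr rfl fun m _ => ?_
  rw [PowerSeries.coeff_mk, PowerSeries.coeff_mk]

private theorem Coef_kap_one_ge (m : ℕ) : kap 1 (m + 2) = 0 := by
  induction m with
  | zero =>
    have h := Pool.Agent.NLG.kap_succ 1 1
    norm_num at h
    exact h
  | succ m ih =>
    have h := Pool.Agent.NLG.kap_succ 1 (m + 2)
    rw [ih, mul_zero] at h
    have h2 : (((m + 2 : ℕ) : ℚ) + 1) ≠ 0 := by positivity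
    exact (mul_eq_zero.mp h).resolve_left h2

private theorem Coef_kap_one_one : kap 1 1 = -1 := by
  have h := Pool.Agent.NLG.kap_succ 1 0
  rw [Pool.Agent.NLG.kap_zero] at h
  norm_num at h
  linarith

private theorem Coef_kap_zero_succ (m : ℕ) : kap 0 (m + 1) = 0 := by
  unfold kap
  rw [Ring.choose_zero_succ, mul_zero]

private theorem Coef_K_zero : Coef_K 0 = 1 := by
  ext n
  unfold Coef_K
  rw [PowerSeries.coeff_mk, PowerSeries.coeff_one]
  cases n with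
  | zero => rw [Pool.Agent.NLG.kap_zero, if_pos rfl]
  | succ n => rw [Coef_kap_zero_succ, if_neg (Nat.succ_ne_zero n)]

private theorem Coef_K_one : Coef_K 1 = 1 - PowerSeries.X := by
  ext n
  unfold Coef_K
  rw [PowerSeries.coeff_mk, map_sub, PowerSeries.coeff_one, PowerSeries.coeff_X]
  cases n with
  | zero => rw [Pool.Agent.NLG.kap_zero, if_pos rfl, if_neg (by omega), sub_zero]
  | succ n =>
    cases n with
    | zero => rw [zero_add, Coef_kap_one_one, if_neg (by omega), if_pos rfl, zero_sub]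
    | succ n => rw [Coef_kap_one_ge, if_neg (by omega), if_neg (by omega), sub_zero]

private theorem Coef_K_pow (ρ : ℚ) (k : ℕ) : Coef_K ρ ^ k = Coef_K (k * ρ) := by
  induction k with
  | zero => rw [pow_zero, Nat.cast_zero, zero_mul, Coef_K_zero]
  | succ k ih =>
    rw [pow_succ, ih, Coef_K_mul]
    congr 1
    push_cast
    ring

private theorem Coef_K_nat (k : ℕ) : Coef_K k = (1 - PowerSeries.X) ^ k := by
  rw [← Coef_K_one, Coef_K_pow, mul_one]

private theorem Coef_mk (p : VP) (hn : p.n ≠ 0) : PowerSeries.mk (cQ p) =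
    Coef_K (-(p.h : ℚ) / p.q) * PowerSeries.expand p.n hn (Coef_K ((p.f : ℚ) / p.q)) := by
  obtain ⟨A, hA⟩ : ∃ A, A = Coef_K (-(p.h : ℚ) / p.q) := ⟨_, rfl⟩
  obtain ⟨B, hB⟩ : ∃ B, B = Coef_K ((p.f : ℚ) / p.q) := ⟨_, rfl⟩
  have hAc : ∀ k, PowerSeries.coeff k A = kap (-(p.h : ℚ) / p.q) k := by
    intro k
    rw [hA, Coef_K, PowerSeries.coeff_mk]
  have hBc : ∀ k, PowerSeries.coeff k B = kap ((p.f : ℚ) / p.q) k := by
    intro k
    rw [hB, Coef_K, PowerSeries.coeff_mk]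
  rw [← hA, ← hB]
  ext m
  rw [PowerSeries.coeff_mk, mul_comm A, PowerSeries.coeff_mul,
    Finset.Nat.sum_antidiagonal_eq_sum_range_succ
      (fun a b => PowerSeries.coeff a (PowerSeries.expand p.n hn B) * PowerSeries.coeff b A)]
  have hinj : Set.InjOn (fun b : ℕ => p.n * b) (range (m / p.n + 1) : Set ℕ) := by
    intro a _ b _ hab
    exact Nat.eq_of_mul_eq_mul_left (Nat.pos_of_ne_zero hn) hab
  have hsub : (range (m / p.n + 1)).image (fun b : ℕ => p.n * b) ⊆ range (m + 1) := by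
    intro j hj
    obtain ⟨b, hb, rfl⟩ := mem_image.1 hj
    exact mem_range.2 (Nat.lt_succ_of_le (Coef_nb hb))
  rw [← sum_subset hsub, sum_image hinj]
  · unfold cQ
    refine sum_congr rfl fun b _ => ?_
    rw [PowerSeries.coeff_expand_mul, hAc, hBc, mul_comm]
  · intro j hj hj2
    rw [PowerSeries.coeff_expand_of_not_dvd, zero_mul]
    rintro ⟨b, rfl⟩
    refine hj2 (mem_image.2 ⟨b, mem_range.2 (Nat.lt_succ_of_le ?_), rfl⟩)
    rw [Nat.le_div_iff_mul_le (Nat.pos_of_ne_zero hn), mul_comm]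
    exact Nat.lt_succ_iff.1 (mem_range.1 hj)

private theorem Coef_psiQ (p : VP) (hq : 1 ≤ p.q) (hn : 1 ≤ p.n) :
    PowerSeries.mk (cQ p) ^ p.q * (1 - PowerSeries.X) ^ p.h = (1 - PowerSeries.X ^ p.n) ^ p.f := by
  have hq0 : (p.q : ℚ) ≠ 0 := by
    have : p.q ≠ 0 := by omega
    exact_mod_cast this
  have hn0 : p.n ≠ 0 := by omega
  rw [Coef_mk p hn0, mul_pow, Coef_K_pow, ← map_pow, Coef_K_pow, mul_div_cancel₀ _ hq0,
    mul_div_cancel₀ _ hq0, Coef_K_nat, ← Coef_K_nat p.h, mul_right_comm, Coef_K_mul, neg_add_cancel,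
    Coef_K_zero, one_mul, map_pow, map_sub, map_one, PowerSeries.expand_X]

theorem psi_pow (p : VP) (hq : 1 ≤ p.q) (hn : 1 ≤ p.n) :
    psi p ^ p.q * (1 - PowerSeries.X) ^ p.h = (1 - PowerSeries.X ^ p.n) ^ p.f := by
  have h1 := congrArg (PowerSeries.map (algebraMap ℚ ℝ)) (Coef_psiQ p hq hn)
  have h2 : PowerSeries.map (algebraMap ℚ ℝ) (PowerSeries.mk (cQ p)) = psi p := by
    ext m
    rw [PowerSeries.coeff_map, PowerSeries.coeff_mk, psi, PowerSeries.coeff_mk]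
    rfl
  rw [map_mul, map_pow, map_pow, map_pow, map_sub, map_sub, map_one, map_pow, PowerSeries.map_X,
    h2] at h1
  exact h1

end Pool.Agent.NLV
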