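import Pool.Agent.NLV.Coef
import Pool.Agent.NLV.Bds
import Pool.Agent.NLF.VF

/-!
# NLV-Comp (V4): `t Θ = κ T^` (wrapper of `NLF.t_theta`)
-/

namespace Pool.Agent.NLV

open Finset Polynomial

theorem psi_coeff (p : VP) (m : ℕ) : PowerSeries.coeff m (psi p) = ((cQ p m : ℚ) : ℝ) := by
  unfold psi
  rw [PowerSeries.coeff_mk]

theorem psi_coeff_le (p : VP) (hq : 1 ≤ p.q) (hh : p.h ≤ p.q) (m : ℕ) :
    |PowerSeries.coeff m (psi p)| ≤ m + 1 := by
  rw [psi_coeff]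
  have h := abs_cQ_le p hq hh m
  have h' : ((|cQ p m| : ℚ) : ℝ) ≤ (((m : ℚ) + 1 : ℚ) : ℝ) := by exact_mod_cast h
  push_cast at h'
  exact h'

theorem Zt_map (z g : ℤ) : PowerSeries.map (Int.castRingHom ℝ) (Zt ℤ z g) = NLF.Zr (z : ℝ) (g : ℝ) := by
  unfold Zt NLF.Zr
  rw [map_mul, map_sub, map_mul, map_one, PowerSeries.map_C, PowerSeries.map_C, PowerSeries.map_X]
  simp

theorem compare {p : VP} {n2 : ℕ} (hp : VGood p n2) {z t : ℕ} (hz : 16 ≤ z) (ht : 0 < t) (Θ : PowerSeries ℤ)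
    (h1 : PowerSeries.constantCoeff Θ = 1) (h2 : Eqn p n2 z t Θ) :
    ∃ κ : ℝ, 0 ≤ κ ∧ κ ≤ 1 ∧ 1 - κ ≤ ((z : ℝ)⁻¹) ^ n2 ∧
      PowerSeries.C (t : ℝ) * PowerSeries.map (Int.castRingHom ℝ) Θ =
        PowerSeries.C κ * (NLF.Zr z (gg p z : ℤ) ^ p.J * NLF.ev z (gg p z : ℤ) (psi p)) := by
  obtain ⟨b1, b2, b3, b4, b5, b6, b7, b8⟩ := bounds hp
  have hq3 := hp.hq3
  have hn := hp.hn
  have hn2 := hp.hn2
  have hh : p.h = p.e + p.f := rfl
  have hzR : (16 : ℝ) ≤ (z : ℝ) := by exact_mod_cast hz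
  have hz0 : (z : ℝ) ≠ 0 := by linarith
  have hg0 : (0 : ℤ) ≤ gg p z := by
    unfold gg
    have h5 : (1 : ℤ) ≤ (z : ℤ) ^ p.n := one_le_pow₀ (by omega)
    exact mul_nonneg (by positivity) (by omega)
  have hgR : (0 : ℝ) ≤ ((gg p z : ℤ) : ℝ) := by exact_mod_cast hg0
  have htR : (0 : ℝ) < (t : ℝ) := by exact_mod_cast ht
  have hψ0 : PowerSeries.coeff 0 (psi p) = 1 := by
    rw [psi_coeff, cQ_zero]
    simp
  obtain ⟨κ, k1, k2, k3, k4⟩ := NLF.t_theta (z := (z : ℝ)) (g := ((gg p z : ℤ) : ℝ)) (t := (t : ℝ))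
    (q := p.q) (h := p.h) (e := p.e) (f := p.f) (J := p.J) (n := p.n) (n2 := n2)
    (ψ := psi p) (Θ := PowerSeries.map (Int.castRingHom ℝ) Θ) hzR hgR (by omega) (by omega) (by omega) htR
    hp.hJ hψ0 (psi_coeff_le p (by omega) b6) (psi_pow p (by omega) (by omega))
    (by
      rw [← PowerSeries.coeff_zero_eq_constantCoeff_apply, PowerSeries.coeff_map,
        PowerSeries.coeff_zero_eq_constantCoeff_apply, h1]
      simp)
    (by
      have h3 := congrArg (PowerSeries.map (Int.castRingHom ℝ)) h2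
      simp only [map_mul, map_pow, map_sub, map_one, Zt_map, PowerSeries.map_C, PowerSeries.map_X, Int.coe_castRingHom,
        Int.cast_natCast] at h3
      rw [h3]
      have e5 : (PowerSeries.C (z : ℝ) ^ n2 - 1) ^ p.e =
          PowerSeries.C ((1 - ((z : ℝ)⁻¹) ^ n2) ^ p.e) * PowerSeries.C (z : ℝ) ^ (p.e * n2) := by
        rw [mul_comm p.e n2, pow_mul, ← map_pow, ← map_pow, ← map_mul, ← mul_pow, sub_mul, one_mul, ← mul_pow,
          inv_mul_cancel₀ hz0, one_pow]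
        simp only [map_pow, map_sub, map_one]
      rw [e5]
      have e6 : NLF.Zr (z : ℝ) ((gg p z : ℤ) : ℝ) ^ (p.e * n2) = PowerSeries.C (z : ℝ) ^ (p.e * n2) *
          (1 - PowerSeries.C ((gg p z : ℤ) : ℝ) * PowerSeries.X) ^ (p.e * n2) := by
        unfold NLF.Zr
        rw [mul_pow]
      rw [e6]
      ring)
  exact ⟨κ, k1.le, k2, k3, k4⟩

end Pool.Agent.NLV
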