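import Pool.Agent.NLG.Kap

/-!
# NLV: the one-variable block of Theorem F (two q-th power repunits to the same base) - definitions

Paper: /team-store/theoremF_h43.md (V1-V10).  `n` is the fixed shorter length, `n2` the longer one, `z` the base,
`h = e + f`, `t ^ q (z - 1) ^ h = (z ^ n2 - 1) ^ e (z ^ n - 1) ^ f`, `q J + h = e n2 + f n`, `R = n2 / 30`.
`ψ = ∑ c_m x ^ m = (1 - x) ^ (-h/q) (1 - x ^ n) ^ (f/q)`.  `g = q ^ 2 (z ^ n - 1)`, `z(τ) = z (1 - g τ)`.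
-/

namespace Pool.Agent.NLV

open Finset Polynomial
open Pool.Agent.NLG (KZ kap)

/-- The parameters. -/
structure VP where
  q : ℕ
  e : ℕ
  f : ℕ
  J : ℕ
  n : ℕ
  R : ℕ

/-- `h = e + f`. -/
def VP.h (p : VP) : ℕ := p.e + p.f

/-- The number of coefficients of `A`. -/
def VP.P (p : VP) : ℕ := 2 * p.R

/-- The number of coefficients of `B`. -/
def VP.S (p : VP) : ℕ := p.P + p.J

/-- The total order. -/
def VP.Q (p : VP) : ℕ := p.S + p.R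

/-- The order of vanishing at the point. -/
def VP.M (p : VP) : ℕ := p.R / (2 * p.n)

/-- The choice of the parameters, `n2` the longer length. -/
structure VGood (p : VP) (n2 : ℕ) : Prop where
  hq3 : 3 ≤ p.q
  he : 1 ≤ p.e
  hf : 1 ≤ p.f
  hq : 2 * p.h ≤ p.q + 1
  hn : 2 ≤ p.n
  hn2 : 1000 * p.n ≤ n2
  hR : p.R = n2 / 30
  hJ : p.q * p.J + p.h = p.e * n2 + p.f * p.n

/-- The coefficient `c_m` of `x ^ m` in `(1 - x) ^ (-h/q) (1 - x ^ n) ^ (f/q)`. -/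
noncomputable def cQ (p : VP) (m : ℕ) : ℚ :=
  ∑ b ∈ range (m / p.n + 1), kap (-(p.h : ℚ) / p.q) (m - p.n * b) * kap ((p.f : ℚ) / p.q) b

/-- The integer `q ^ (2 m) c_m`. -/
noncomputable def cZ (p : VP) (m : ℕ) : ℤ :=
  ∑ b ∈ range (m / p.n + 1), KZ p.q (-(p.h : ℤ)) (m - p.n * b) * KZ p.q (p.f : ℤ) b *
    (p.q : ℤ) ^ (2 * ((p.n - 1) * b))

/-- The series `ψ` over the real numbers. -/
noncomputable def psi (p : VP) : PowerSeries ℝ := PowerSeries.mk fun m => ((cQ p m : ℚ) : ℝ)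

/-- The integer `q ^ (2 Q) g_r`, `g_r = ∑ (i ≤ r, i < P) A_i c_(r - i)` (for `r < Q`). -/
noncomputable def gZ (p : VP) (A : ℕ → ℤ) (r : ℕ) : ℤ :=
  ∑ i ∈ range p.P, if i ≤ r then A i * cZ p (r - i) * (p.q : ℤ) ^ (2 * (p.Q - (r - i))) else 0

/-- The real number `g_r` (all `r`). -/
noncomputable def gR (p : VP) (A : ℕ → ℤ) (r : ℕ) : ℝ :=
  ∑ i ∈ range p.P, if i ≤ r then (A i : ℝ) * ((cQ p (r - i) : ℚ) : ℝ) else 0

/-- The polynomial `A(Z) = q ^ (2 Q) ∑ A_i Z ^ (P - 1 - i)`. -/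
noncomputable def cA (p : VP) (A : ℕ → ℤ) : ℤ[X] :=
  ∑ i ∈ range p.P, monomial (p.P - 1 - i) ((p.q : ℤ) ^ (2 * p.Q) * A i)

/-- The polynomial `B(Z) = ∑ (r < S) q ^ (2 Q) g_r Z ^ (S - 1 - r)`. -/
noncomputable def cB (p : VP) (A : ℕ → ℤ) : ℤ[X] :=
  ∑ r ∈ range p.S, monomial (p.S - 1 - r) (gZ p A r)

/-- `1 + Z + ... + Z ^ (n-1)`. -/
noncomputable def repX (n : ℕ) : ℤ[X] := ∑ i ∈ range n, X ^ i

/-- `q J (Z ^ n - 1) - h rep(Z, n) + n f`. -/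
noncomputable def KK (p : VP) : ℤ[X] :=
  C ((p.q : ℤ) * p.J) * (X ^ p.n - 1) - C (p.h : ℤ) * repX p.n + C ((p.n : ℤ) * p.f)

/-- The eliminant of `A` and `B`. -/
noncomputable def NV (p : VP) (A B : ℤ[X]) : ℤ[X] :=
  C (p.q : ℤ) * X * (X ^ p.n - 1) * (derivative A * B - A * derivative B) + A * B * KK p

/-- The sum of the absolute values of the coefficients. -/
noncomputable def nrm1 (F : ℤ[X]) : ℤ := F.sum fun _ a => |a|

/-- `z(τ) = z (1 - g τ)`. -/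
noncomputable def Zt (K : Type) [CommRing K] (z g : K) : PowerSeries K :=
  PowerSeries.C z * (1 - PowerSeries.C g * PowerSeries.X)

/-- `g = q ^ 2 (z ^ n - 1)`. -/
def gg (p : VP) (z : ℤ) : ℤ := (p.q : ℤ) ^ 2 * (z ^ p.n - 1)

/-- The equation of `Θ`, multiplied by the `q`-th power of `t`. -/
def Eqn (p : VP) (n2 : ℕ) (z t : ℤ) (Θ : PowerSeries ℤ) : Prop :=
  (PowerSeries.C t * Θ) ^ p.q * (Zt ℤ z (gg p z) - 1) ^ p.h =
    PowerSeries.C ((z ^ n2 - 1) ^ p.e) * (1 - PowerSeries.C (gg p z) * PowerSeries.X) ^ (p.e * n2) *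
      (Zt ℤ z (gg p z) ^ p.n - 1) ^ p.f

/-- The form at the point: `t A(z(τ)) Θ(τ) - B(z(τ))`. -/
noncomputable def Wt (z g t : ℤ) (A B : ℤ[X]) (Θ : PowerSeries ℤ) : PowerSeries ℤ :=
  PowerSeries.C t * aeval (Zt ℤ z g) A * Θ - aeval (Zt ℤ z g) B

end Pool.Agent.NLV
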