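import Pool.Agent.NLV.Defs
import Pool.Agent.NLF.VG

/-!
# NLV-NNz (V7): the eliminant is not zero (wrapper of `NLF.NP_ne_zero`)
-/

namespace Pool.Agent.NLV

open Finset Polynomial

theorem NV_eq (p : VP) (A B : ℤ[X]) : NV p A B = NLF.NP p.q p.h p.f p.n p.J A B := rfl

theorem NV_ne_zero (p : VP) (hn : 1 ≤ p.n) (he : 1 ≤ p.e) (heq : p.e < p.q) {A B : ℤ[X]} (hA : A ≠ 0) (hB : B ≠ 0) :
    NV p A B ≠ 0 := by
  rw [NV_eq]
  exact NLF.NP_ne_zero hn he heq rfl hA hB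

end Pool.Agent.NLV
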