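import Pool.Agent.NLV.Comp
import Pool.Agent.NLV.NNz

/-!
# NLV-Elim (V6): elimination (wrapper of `NLF.elim_dvd`)
-/

namespace Pool.Agent.NLV

open Finset Polynomial

theorem Eqn_real {p : VP} {n2 : ℕ} {z t : ℤ} (hz : 1 < z) (Θ : PowerSeries ℤ) (h2 : Eqn p n2 z t Θ) :
    (PowerSeries.C (t : ℝ) * PowerSeries.map (Int.castRingHom ℝ) Θ) ^ p.q *
      (NLF.Zr (z : ℝ) ((gg p z : ℤ) : ℝ) - 1) ^ p.h =
    PowerSeries.C ((1 - ((z : ℝ)⁻¹) ^ n2) ^ p.e) *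
      (NLF.Zr (z : ℝ) ((gg p z : ℤ) : ℝ) ^ (p.e * n2) * (NLF.Zr (z : ℝ) ((gg p z : ℤ) : ℝ) ^ p.n - 1) ^ p.f) := by
  have hz1 : (1 : ℝ) < (z : ℝ) := by exact_mod_cast hz
  have hz0 : (z : ℝ) ≠ 0 := by linarith
  have h3 := congrArg (PowerSeries.map (Int.castRingHom ℝ)) h2
  simp only [map_mul, map_pow, map_sub, map_one, Zt_map, PowerSeries.map_C, PowerSeries.map_X, Int.coe_castRingHom] at h3
  rw [h3]
  have e5 : (PowerSeries.C (z : ℝ) ^ n2 - 1) ^ p.e =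
      PowerSeries.C ((1 - ((z : ℝ)⁻¹) ^ n2) ^ p.e) * PowerSeries.C (z : ℝ) ^ (p.e * n2) := by
    rw [mul_comm p.e n2, pow_mul, ← map_pow, ← map_pow, ← map_mul, ← mul_pow, sub_mul, one_mul, ← mul_pow,
      inv_mul_cancel₀ hz0, one_pow]
    simp only [map_pow, map_sub, map_one]
  rw [e5]
  have e6 : NLF.Zr (z : ℝ) ((gg p z : ℤ) : ℝ) ^ (p.e * n2) = PowerSeries.C (z : ℝ) ^ (p.e * n2) *
      (1 - PowerSeries.C ((gg p z : ℤ) : ℝ) * PowerSeries.X) ^ (p.e * n2) := by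
    unfold NLF.Zr
    rw [mul_pow]
  rw [e6]
  ring

theorem evP_eq (x : PowerSeries ℝ) (F : ℤ[X]) : NLF.evP x F = aeval x F := by
  unfold NLF.evP
  rw [coe_eval₂RingHom, aeval_def]
  congr 1
  exact RingHom.ext_int _ _

theorem elim1 {p : VP} {n2 : ℕ} (hp : VGood p n2) {z t : ℤ} (hz : 2 ≤ z) (ht : t ≠ 0) (A B : ℤ[X])
    (Θ : PowerSeries ℤ) (h1 : PowerSeries.constantCoeff Θ = 1) (h2 : Eqn p n2 z t Θ) {M : ℕ}
    (hM : ∀ l ≤ M, PowerSeries.coeff l (Wt z (gg p z) t A B Θ) = 0) :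
    (X - C z) ^ M ∣ NV p A B := by
  have hn := hp.hn
  have hq3 := hp.hq3
  have hg : (0 : ℤ) < gg p z := by
    unfold gg
    have h5 : z ≤ z ^ p.n := le_self_pow₀ (by omega) (by omega)
    have h6 : (0 : ℤ) < (p.q : ℤ) := by
      have : 0 < p.q := by omega
      exact_mod_cast this
    exact mul_pos (by positivity) (by omega)
  have hgR : (0 : ℝ) < ((gg p z : ℤ) : ℝ) := by exact_mod_cast hg
  have htR : (t : ℝ) ≠ 0 := by exact_mod_cast ht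
  rw [NV_eq]
  refine NLF.elim_dvd (z := z) (g := ((gg p z : ℤ) : ℝ)) (n2 := n2) (e := p.e) (by omega) hgR hp.hJ A B
    (PowerSeries.C (t : ℝ) * PowerSeries.map (Int.castRingHom ℝ) Θ) ((1 - ((z : ℝ)⁻¹) ^ n2) ^ p.e) ?_ ?_ ?_
  · rw [map_mul, ← PowerSeries.coeff_zero_eq_constantCoeff_apply (PowerSeries.map (Int.castRingHom ℝ) Θ), PowerSeries.coeff_map,
      PowerSeries.coeff_zero_eq_constantCoeff_apply, h1]
    simpa using htR
  · exact Eqn_real (by omega) Θ h2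
  · rw [PowerSeries.X_pow_dvd_iff]
    intro l hl
    have h3 : PowerSeries.map (Int.castRingHom ℝ) (Wt z (gg p z) t A B Θ) =
        PowerSeries.C (t : ℝ) * PowerSeries.map (Int.castRingHom ℝ) Θ *
          NLF.evP (NLF.Zr (z : ℝ) ((gg p z : ℤ) : ℝ)) A - NLF.evP (NLF.Zr (z : ℝ) ((gg p z : ℤ) : ℝ)) B := by
      have hF : ∀ F : ℤ[X], PowerSeries.map (Int.castRingHom ℝ) (aeval (Zt ℤ z (gg p z)) F) =
          aeval (NLF.Zr (z : ℝ) ((gg p z : ℤ) : ℝ)) F := by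
        intro F
        rw [← Zt_map, aeval_def, aeval_def, hom_eval₂]
        congr 1
      unfold Wt
      rw [map_sub, map_mul, map_mul, hF, hF, PowerSeries.map_C, evP_eq, evP_eq]
      have e : (Int.castRingHom ℝ) t = (t : ℝ) := by simp
      rw [e]
      ring
    rw [← h3, PowerSeries.coeff_map, hM l (by omega), map_zero]

end Pool.Agent.NLV
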