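import Pool.Agent.NLV.Coef

/-!
# NLV-GR (V2): the numbers `g_r`

PLAN.  `gZ_cast`: termwise by `cZ_cast` (cast to `ℝ`), `2 (r - i) + 2 (Q - (r - i)) = 2 Q` for `r < Q`.
`abs_gR_le`: triangle inequality, `P` terms, each at most `H (r - i + 1) ≤ H (r + 1)` by `abs_cQ_le`.
`abs_gZ_le`: from the two others or directly.
`gR_coeff`: `Finset.sum_mul`, `map_sum`, and the coefficient `r` of `C a * X ^ i * ψ` is `a ψ_(r - i)` if `i ≤ r` and `0` otherwise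
(`PowerSeries.coeff_X_pow_mul'`).
-/

namespace Pool.Agent.NLV

open Finset Polynomial
open Pool.Agent.NLG (KZ kap)

private lemma GR_cast (p : VP) (hq : 1 ≤ p.q) (hn : 1 ≤ p.n) (m : ℕ) :
    (cZ p m : ℝ) = (p.q : ℝ) ^ (2 * m) * ((cQ p m : ℚ) : ℝ) := by
  have h := congrArg (fun x : ℚ => (x : ℝ)) (cZ_cast p hq hn m)
  push_cast at h
  exact h

private lemma GR_abs (p : VP) (hq : 1 ≤ p.q) (hh : p.h ≤ p.q) (m : ℕ) :
    |((cQ p m : ℚ) : ℝ)| ≤ m + 1 := by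
  have h := abs_cQ_le p hq hh m
  have h2 : ((|cQ p m| : ℚ) : ℝ) ≤ (((m : ℚ) + 1 : ℚ) : ℝ) := by exact_mod_cast h
  push_cast at h2
  exact h2

theorem gZ_cast (p : VP) (hq : 1 ≤ p.q) (hn : 1 ≤ p.n) (A : ℕ → ℤ) {r : ℕ} (hr : r < p.Q) :
    (gZ p A r : ℝ) = (p.q : ℝ) ^ (2 * p.Q) * gR p A r := by
  unfold gZ gR
  rw [Int.cast_sum, Finset.mul_sum]
  refine Finset.sum_congr rfl fun i _ => ?_
  split_ifs with h
  · have e : 2 * p.Q = 2 * (r - i) + 2 * (p.Q - (r - i)) := by omega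
    rw [Int.cast_mul, Int.cast_mul, GR_cast p hq hn, Int.cast_pow, Int.cast_natCast, e, pow_add]
    have e3 : 2 * (r - i) + 2 * (p.Q - (r - i)) = 2 * p.Q := by omega
    ring
  · simp

theorem abs_gR_le (p : VP) (hq : 1 ≤ p.q) (hh : p.h ≤ p.q) (A : ℕ → ℤ) {H : ℝ} (hA : ∀ i, |(A i : ℝ)| ≤ H) (r : ℕ) :
    |gR p A r| ≤ p.P * H * (r + 1) := by
  have hH : 0 ≤ H := (abs_nonneg _).trans (hA 0)
  unfold gR
  refine (Finset.abs_sum_le_sum_abs _ _).trans ?_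
  have h1 : ∀ i ∈ range p.P,
      |if i ≤ r then (A i : ℝ) * ((cQ p (r - i) : ℚ) : ℝ) else 0| ≤ H * (r + 1) := by
    intro i _
    split_ifs with h
    · rw [abs_mul]
      refine mul_le_mul (hA i) ((GR_abs p hq hh _).trans ?_) (abs_nonneg _) hH
      have : ((r - i : ℕ) : ℝ) ≤ (r : ℝ) := by exact_mod_cast Nat.sub_le r i
      linarith
    · rw [abs_zero]
      positivity
  have h2 := Finset.sum_le_card_nsmul (range p.P) _ _ h1
  rw [Finset.card_range, nsmul_eq_mul] at h2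
  refine h2.trans (le_of_eq (by ring))

theorem abs_gZ_le (p : VP) (hq : 1 ≤ p.q) (hn : 1 ≤ p.n) (hh : p.h ≤ p.q) (A : ℕ → ℤ) {H : ℤ} (hA : ∀ i, |A i| ≤ H)
    {r : ℕ} (hr : r < p.Q) : |gZ p A r| ≤ p.P * H * (r + 1) * (p.q : ℤ) ^ (2 * p.Q) := by
  have h1 : ∀ i, |(A i : ℝ)| ≤ (H : ℝ) := fun i => by exact_mod_cast hA i
  have h2 := abs_gR_le p hq hh A h1 r
  have h3 : |(gZ p A r : ℝ)| ≤ p.P * H * (r + 1) * (p.q : ℝ) ^ (2 * p.Q) := by
    rw [gZ_cast p hq hn A hr, abs_mul, abs_of_nonneg (by positivity : (0 : ℝ) ≤ (p.q : ℝ) ^ (2 * p.Q)),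
      mul_comm]
    exact mul_le_mul_of_nonneg_right h2 (by positivity)
  exact_mod_cast h3

theorem gR_coeff (p : VP) (A : ℕ → ℤ) (r : ℕ) :
    PowerSeries.coeff r ((∑ i ∈ range p.P, PowerSeries.C (A i : ℝ) * PowerSeries.X ^ i) * psi p) = gR p A r := by
  rw [Finset.sum_mul, map_sum]
  unfold gR
  refine Finset.sum_congr rfl fun i _ => ?_
  rw [mul_assoc, PowerSeries.coeff_C_mul, PowerSeries.coeff_X_pow_mul']
  split_ifs with h
  · rw [psi, PowerSeries.coeff_mk]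
  · rw [mul_zero]

end Pool.Agent.NLV
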