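import Pool.Agent.NLV.Defs
import Pool.Agent.NLF.VG

/-!
# NLV-Low (V9): a polynomial divisible by `(X - z) ^ M` has norm at least `z ^ M` (from `NLF.exists_coeff_ge`)
-/

namespace Pool.Agent.NLV

open Finset Polynomial

theorem coeff_le_nrm1 (N : ℤ[X]) (i : ℕ) : |N.coeff i| ≤ nrm1 N := by
  unfold nrm1
  rw [Polynomial.sum_def]
  by_cases h : i ∈ N.support
  · exact Finset.single_le_sum (f := fun i => |N.coeff i|) (fun j _ => abs_nonneg _) h
  · rw [Polynomial.notMem_support_iff.1 h, abs_zero]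
    exact Finset.sum_nonneg fun j _ => abs_nonneg _

theorem pow_le_nrm1 {z : ℤ} (hz : 1 ≤ z) {M : ℕ} {N : ℤ[X]} (hN : N ≠ 0) (h : (X - C z) ^ M ∣ N) :
    z ^ M ≤ nrm1 N := by
  obtain ⟨i, hi⟩ := NLF.exists_coeff_ge hN hz h
  exact hi.trans (coeff_le_nrm1 N i)

end Pool.Agent.NLV
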