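import Pool.Agent.NLV.GR

/-!
# NLV-NBd (V8): the norm of the eliminant

The sum of the absolute values of the coefficients is a submultiplicative norm, the derivative of a polynomial of degree at most
`d` has at most `d` times the norm; the norms of `cA` and `cB` are bounded termwise (`abs_gZ_le`), then the eliminant.
-/

namespace Pool.Agent.NLV

open Finset Polynomial

private theorem nbv_range (F : ℤ[X]) {n : ℕ} (h : F.natDegree < n) : nrm1 F = ∑ i ∈ range n, |F.coeff i| :=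
  sum_over_range' F (fun _ => abs_zero) n h

private theorem nbv_nonneg (F : ℤ[X]) : 0 ≤ nrm1 F :=
  Finset.sum_nonneg fun _ _ => abs_nonneg _

private theorem nbv_zero : nrm1 (0 : ℤ[X]) = 0 := by
  unfold nrm1
  exact sum_zero_index _

private theorem nbv_add (F G : ℤ[X]) : nrm1 (F + G) ≤ nrm1 F + nrm1 G := by
  have h1 : F.natDegree < F.natDegree + G.natDegree + (F + G).natDegree + 1 := by omega
  have h2 : G.natDegree < F.natDegree + G.natDegree + (F + G).natDegree + 1 := by omega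
  have h3 : (F + G).natDegree < F.natDegree + G.natDegree + (F + G).natDegree + 1 := by omega
  rw [nbv_range F h1, nbv_range G h2, nbv_range (F + G) h3, ← sum_add_distrib]
  refine sum_le_sum fun i _ => ?_
  rw [coeff_add]
  exact abs_add_le _ _

private theorem nbv_neg (F : ℤ[X]) : nrm1 (-F) = nrm1 F := by
  have h1 : F.natDegree < F.natDegree + 1 := by omega
  have h2 : (-F).natDegree < F.natDegree + 1 := by rw [natDegree_neg]; omega
  rw [nbv_range F h1, nbv_range (-F) h2]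
  refine sum_congr rfl fun i _ => ?_
  rw [coeff_neg, abs_neg]

private theorem nbv_sub (F G : ℤ[X]) : nrm1 (F - G) ≤ nrm1 F + nrm1 G := by
  rw [sub_eq_add_neg]
  refine (nbv_add _ _).trans ?_
  rw [nbv_neg]

private theorem nbv_mono (n : ℕ) (a : ℤ) : nrm1 (monomial n a) = |a| := by
  unfold nrm1
  exact sum_monomial_index a _ abs_zero

private theorem nbv_sum {ι : Type*} (t : Finset ι) (f : ι → ℤ[X]) :
    nrm1 (∑ i ∈ t, f i) ≤ ∑ i ∈ t, nrm1 (f i) := by
  classical
  induction t using Finset.induction_on with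
  | empty => rw [sum_empty, sum_empty, nbv_zero]
  | insert a t hat ih =>
    rw [sum_insert hat, sum_insert hat]
    exact (nbv_add _ _).trans (by linarith)

private theorem nbv_mul (F G : ℤ[X]) : nrm1 (F * G) ≤ nrm1 F * nrm1 G := by
  rw [mul_eq_sum_sum]
  refine (nbv_sum _ _).trans ?_
  unfold nrm1
  rw [Polynomial.sum_def F, sum_mul]
  refine sum_le_sum fun i _ => ?_
  rw [Polynomial.sum_def G, Polynomial.sum_def G, mul_sum]
  refine (nbv_sum _ _).trans ?_
  refine sum_le_sum fun j _ => ?_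
  rw [nbv_mono]
  exact (abs_mul _ _).le

private theorem nbv_der (F : ℤ[X]) {D : ℕ} (hD : F.natDegree ≤ D) : nrm1 (derivative F) ≤ D * nrm1 F := by
  rw [derivative_apply, Polynomial.sum_def]
  refine (nbv_sum _ _).trans ?_
  unfold nrm1
  rw [Polynomial.sum_def F, mul_sum]
  refine sum_le_sum fun i hi => ?_
  have h1 : (C (F.coeff i * (i : ℤ)) * X ^ (i - 1)).sum (fun _ c => |c|) = |F.coeff i * (i : ℤ)| := by
    rw [C_mul_X_pow_eq_monomial]
    exact nbv_mono _ _
  have h2 : i ≤ D := (le_natDegree_of_mem_supp i hi).trans hD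
  have h3 : (i : ℤ) ≤ D := by exact_mod_cast h2
  have h4 : (0 : ℤ) ≤ i := by positivity
  rw [h1, abs_mul, abs_of_nonneg h4, mul_comm]
  exact mul_le_mul_of_nonneg_right h3 (abs_nonneg _)

private theorem nbv_C (c : ℤ) : nrm1 (C c) = |c| := by
  have h := nbv_mono 0 c
  rwa [monomial_zero_left] at h

private theorem nbv_Xp (n : ℕ) : nrm1 (X ^ n : ℤ[X]) = 1 := by
  have h := nbv_mono n 1
  rwa [abs_one, ← X_pow_eq_monomial] at h

private theorem nbv_X : nrm1 (X : ℤ[X]) = 1 := by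
  have h := nbv_Xp 1
  rwa [pow_one] at h

private theorem nbv_Xn1 (n : ℕ) : nrm1 (X ^ n - 1 : ℤ[X]) ≤ 2 := by
  refine (nbv_sub _ _).trans ?_
  have h : nrm1 (1 : ℤ[X]) = 1 := by
    have h1 := nbv_C 1
    rwa [C_1, abs_one] at h1
  rw [nbv_Xp, h]
  norm_num

private theorem nbv_rep (n : ℕ) : nrm1 (repX n) ≤ n := by
  unfold repX
  refine (nbv_sum _ _).trans ?_
  simp only [nbv_Xp]
  rw [sum_const, card_range, nsmul_eq_mul, mul_one]

private theorem nbv_KK (p : VP) : nrm1 (KK p) ≤ 2 * (p.q * p.J) + p.h * p.n + p.n * p.f := by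
  unfold KK
  refine (nbv_add _ _).trans ?_
  have h1 : nrm1 (C ((p.n : ℤ) * p.f)) = p.n * p.f := by
    rw [nbv_C, abs_of_nonneg (by positivity)]
  have h2 : nrm1 (C ((p.q : ℤ) * p.J) * (X ^ p.n - 1)) ≤ 2 * (p.q * p.J) := by
    refine (nbv_mul _ _).trans ?_
    rw [nbv_C, abs_of_nonneg (by positivity), mul_comm]
    exact mul_le_mul_of_nonneg_right (nbv_Xn1 _) (by positivity)
  have h3 : nrm1 (C (p.h : ℤ) * repX p.n) ≤ p.h * p.n := by
    refine (nbv_mul _ _).trans ?_
    rw [nbv_C, abs_of_nonneg (by positivity)]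
    exact mul_le_mul_of_nonneg_left (nbv_rep _) (by positivity)
  have h4 := nbv_sub (C ((p.q : ℤ) * p.J) * (X ^ p.n - 1)) (C (p.h : ℤ) * repX p.n)
  rw [h1]
  linarith

private theorem nbv_dA (p : VP) (A : ℕ → ℤ) : (cA p A).natDegree ≤ p.P := by
  unfold cA
  refine natDegree_sum_le_of_forall_le _ _ fun i _ => ?_
  exact (natDegree_monomial_le _).trans (by omega)

private theorem nbv_dB (p : VP) (A : ℕ → ℤ) : (cB p A).natDegree ≤ p.S := by
  unfold cB
  refine natDegree_sum_le_of_forall_le _ _ fun i _ => ?_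
  exact (natDegree_monomial_le _).trans (by omega)

private theorem nbv_nA (p : VP) (A : ℕ → ℤ) {H : ℤ} (hA : ∀ i, |A i| ≤ H) :
    nrm1 (cA p A) ≤ p.P * ((p.q : ℤ) ^ (2 * p.Q) * H) := by
  unfold cA
  refine (nbv_sum _ _).trans ?_
  calc ∑ i ∈ range p.P, nrm1 (monomial (p.P - 1 - i) ((p.q : ℤ) ^ (2 * p.Q) * A i))
      ≤ ∑ i ∈ range p.P, (p.q : ℤ) ^ (2 * p.Q) * H := by
        refine sum_le_sum fun i _ => ?_
        have h0 : (0 : ℤ) ≤ (p.q : ℤ) ^ (2 * p.Q) := by positivity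
        rw [nbv_mono, abs_mul, abs_of_nonneg h0]
        exact mul_le_mul_of_nonneg_left (hA i) h0
    _ = p.P * ((p.q : ℤ) ^ (2 * p.Q) * H) := by
        rw [sum_const, card_range, nsmul_eq_mul]

private theorem nbv_nB (p : VP) (hq : 1 ≤ p.q) (hn : 1 ≤ p.n) (hh : p.h ≤ p.q) (A : ℕ → ℤ) {H : ℤ}
    (hA : ∀ i, |A i| ≤ H) :
    nrm1 (cB p A) ≤ p.S * (p.P * H * p.S * (p.q : ℤ) ^ (2 * p.Q)) := by
  have hH : 0 ≤ H := (abs_nonneg _).trans (hA 0)
  unfold cB
  refine (nbv_sum _ _).trans ?_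
  calc ∑ r ∈ range p.S, nrm1 (monomial (p.S - 1 - r) (gZ p A r))
      ≤ ∑ r ∈ range p.S, p.P * H * p.S * (p.q : ℤ) ^ (2 * p.Q) := by
        refine sum_le_sum fun r hr => ?_
        have hr1 := mem_range.1 hr
        have hS : p.S ≤ p.Q := by
          unfold VP.Q
          omega
        have h1 := abs_gZ_le p hq hn hh A hA (r := r) (by omega)
        have h2 : ((r : ℤ) + 1) ≤ p.S := by exact_mod_cast hr1
        rw [nbv_mono]
        refine h1.trans ?_
        refine mul_le_mul_of_nonneg_right ?_ (by positivity)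
        exact mul_le_mul_of_nonneg_left h2 (by positivity)
    _ = p.S * (p.P * H * p.S * (p.q : ℤ) ^ (2 * p.Q)) := by
        rw [sum_const, card_range, nsmul_eq_mul]

theorem nrm1_NV (p : VP) (hq : 1 ≤ p.q) (hn : 1 ≤ p.n) (hh : p.h ≤ p.q) (A : ℕ → ℤ) {H : ℤ} (hA : ∀ i, |A i| ≤ H) :
    nrm1 (NV p (cA p A) (cB p A)) ≤ (p.P * ((p.q : ℤ) ^ (2 * p.Q) * H)) *
      (p.S * (p.P * H * p.S * (p.q : ℤ) ^ (2 * p.Q))) *
      (2 * p.q * (p.P + p.S) + 2 * (p.q * p.J) + p.h * p.n + p.n * p.f) := by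
  have hH : 0 ≤ H := (abs_nonneg _).trans (hA 0)
  have nA := nbv_nonneg (cA p A)
  have nB := nbv_nonneg (cB p A)
  have bA := nbv_nA p A hA
  have bB := nbv_nB p hq hn hh A hA
  have cA' := nbv_der (cA p A) (nbv_dA p A)
  have cB' := nbv_der (cB p A) (nbv_dB p A)
  have hq0 : (0 : ℤ) ≤ p.q := by positivity
  have key : nrm1 (NV p (cA p A) (cB p A)) ≤ nrm1 (cA p A) * nrm1 (cB p A) *
      (2 * p.q * (p.P + p.S) + 2 * (p.q * p.J) + p.h * p.n + p.n * p.f) := by
    unfold NV
    refine (nbv_add _ _).trans ?_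
    have f1 : nrm1 (C (p.q : ℤ) * X * (X ^ p.n - 1) *
        (derivative (cA p A) * cB p A - cA p A * derivative (cB p A))) ≤
        (p.q * 2) * ((p.P + p.S) * (nrm1 (cA p A) * nrm1 (cB p A))) := by
      refine (nbv_mul _ _).trans ?_
      have g1 : nrm1 (C (p.q : ℤ) * X * (X ^ p.n - 1)) ≤ p.q * 2 := by
        refine (nbv_mul _ _).trans ?_
        have g0 : nrm1 (C (p.q : ℤ) * X) ≤ p.q := by
          refine (nbv_mul _ _).trans ?_
          rw [nbv_C, nbv_X, mul_one, abs_of_nonneg hq0]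
        exact mul_le_mul g0 (nbv_Xn1 _) (nbv_nonneg _) hq0
      have g2 : nrm1 (derivative (cA p A) * cB p A - cA p A * derivative (cB p A)) ≤
          (p.P + p.S) * (nrm1 (cA p A) * nrm1 (cB p A)) := by
        refine (nbv_sub _ _).trans ?_
        have u1 : nrm1 (derivative (cA p A) * cB p A) ≤ p.P * nrm1 (cA p A) * nrm1 (cB p A) :=
          (nbv_mul _ _).trans (mul_le_mul_of_nonneg_right cA' nB)
        have u2 : nrm1 (cA p A * derivative (cB p A)) ≤ nrm1 (cA p A) * (p.S * nrm1 (cB p A)) :=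
          (nbv_mul _ _).trans (mul_le_mul_of_nonneg_left cB' nA)
        linarith
      exact mul_le_mul g1 g2 (nbv_nonneg _) (by positivity)
    have f2 : nrm1 (cA p A * cB p A * KK p) ≤ (nrm1 (cA p A) * nrm1 (cB p A)) *
        (2 * (p.q * p.J) + p.h * p.n + p.n * p.f) := by
      refine (nbv_mul _ _).trans ?_
      exact mul_le_mul (nbv_mul _ _) (nbv_KK p) (nbv_nonneg _) (mul_nonneg nA nB)
    linarith
  refine key.trans ?_
  refine mul_le_mul_of_nonneg_right ?_ (by positivity)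
  exact mul_le_mul bA bB nB (nA.trans bA)

end Pool.Agent.NLV
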