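import Pool.Agent.NLV.GR
import Pool.Agent.NLV.Comp

/-!
# NLV-Small (V5): the form is small at the point (wrapper of `NLF.v_small`)
-/

namespace Pool.Agent.NLV

open Finset Polynomial

theorem aeval_cA (p : VP) (A : ℕ → ℤ) (x : PowerSeries ℝ) :
    aeval x (cA p A) = PowerSeries.C ((p.q : ℝ) ^ (2 * p.Q)) * ∑ i ∈ range p.P, PowerSeries.C (A i : ℝ) * x ^ (p.P - 1 - i) := by
  unfold cA
  rw [map_sum, Finset.mul_sum]
  refine Finset.sum_congr rfl fun i _ => ?_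
  rw [aeval_monomial, ← mul_assoc, ← map_mul]
  congr 1
  have h : ∀ a : ℤ, (algebraMap ℤ (PowerSeries ℝ)) a = PowerSeries.C (a : ℝ) := by
    intro a
    rw [eq_intCast]
    exact (map_intCast (PowerSeries.C (R := ℝ)) a).symm
  rw [h]
  push_cast
  rfl

theorem aeval_cB (p : VP) (hq : 1 ≤ p.q) (hn : 1 ≤ p.n) (A : ℕ → ℤ) (x : PowerSeries ℝ) :
    aeval x (cB p A) = PowerSeries.C ((p.q : ℝ) ^ (2 * p.Q)) * ∑ r ∈ range p.S, PowerSeries.C (gR p A r) * x ^ (p.S - 1 - r) := by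
  unfold cB
  rw [map_sum, Finset.mul_sum]
  refine Finset.sum_congr rfl fun r hr => ?_
  rw [aeval_monomial, ← mul_assoc, ← map_mul]
  congr 1
  have h : ∀ a : ℤ, (algebraMap ℤ (PowerSeries ℝ)) a = PowerSeries.C (a : ℝ) := by
    intro a
    rw [eq_intCast]
    exact (map_intCast (PowerSeries.C (R := ℝ)) a).symm
  have hr2 : r < p.Q := by
    have h1 : p.Q = p.S + p.R := rfl
    have h2 := mem_range.1 hr
    omega
  rw [h, gZ_cast p hq hn A hr2]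

theorem small {p : VP} {n2 : ℕ} (hp : VGood p n2) {z g : ℝ} (hz : 16 ≤ z) (hg : 0 ≤ g) (A : ℕ → ℤ) {H : ℝ}
    (hA : ∀ i, |(A i : ℝ)| ≤ H) (hS : ∀ r, p.S ≤ r → r < p.Q → gZ p A r = 0) {κ : ℝ} (k0 : 0 ≤ κ) (k1 : κ ≤ 1)
    (k2 : 1 - κ ≤ (z⁻¹) ^ n2) (l : ℕ) :
    |PowerSeries.coeff l (PowerSeries.C κ * (NLF.Zr z g ^ p.J * NLF.ev z g (psi p)) * aeval (NLF.Zr z g) (cA p A) -
        aeval (NLF.Zr z g) (cB p A))| ≤
      (p.q : ℝ) ^ (2 * p.Q) * (p.P * H * (8 * (p.S + 1) * (4 / z) ^ (p.R + 1) +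
        2 * (z⁻¹) ^ n2 * (2 * z) ^ (p.S - 1)) * (2 * g) ^ l) := by
  obtain ⟨b1, b2, b3, b4, b5, b6, b7, b8⟩ := bounds hp
  have hq3 := hp.hq3
  have hn := hp.hn
  have hP : p.P = 2 * p.R := rfl
  have hQ : p.Q = p.S + p.R := rfl
  have hq0 : (0 : ℝ) < (p.q : ℝ) ^ (2 * p.Q) := by
    have : (0 : ℝ) < (p.q : ℝ) := by exact_mod_cast (by omega : 0 < p.q)
    positivity
  have hG : ∀ r, PowerSeries.coeff r ((∑ i ∈ range p.P, PowerSeries.C (A i : ℝ) * PowerSeries.X ^ i) * psi p) =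
      gR p A r := gR_coeff p A
  have h := NLF.v_small (z := z) (g := g) (κ := κ) (δ := (z⁻¹) ^ n2) (H := H) hz hg (ψ := psi p)
    (psi_coeff_le p (by omega) b6) (A := fun i => (A i : ℝ)) (P := p.P) (J := p.J) (S := p.S) (R := p.R)
    (by omega) rfl (fun i _ => hA i) (G := (∑ i ∈ range p.P, PowerSeries.C (A i : ℝ) * PowerSeries.X ^ i) * psi p) rfl
    (by
      intro r hr1 hr2
      rw [hG]
      have h3 := gZ_cast p (by omega) (by omega) A (r := r) (by omega)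
      rw [hS r hr1 (by omega), Int.cast_zero] at h3
      exact (mul_eq_zero.1 h3.symm).resolve_left hq0.ne') k0 k1 k2 l
  have h4 : PowerSeries.C κ * (NLF.Zr z g ^ p.J * NLF.ev z g (psi p)) * aeval (NLF.Zr z g) (cA p A) -
      aeval (NLF.Zr z g) (cB p A) = PowerSeries.C ((p.q : ℝ) ^ (2 * p.Q)) *
      (PowerSeries.C κ * (NLF.Zr z g ^ p.J * NLF.ev z g (psi p)) *
        (∑ i ∈ range p.P, PowerSeries.C (A i : ℝ) * NLF.Zr z g ^ (p.P - 1 - i)) -
        ∑ r ∈ range p.S, PowerSeries.C (PowerSeries.coeff r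
          ((∑ i ∈ range p.P, PowerSeries.C (A i : ℝ) * PowerSeries.X ^ i) * psi p)) * NLF.Zr z g ^ (p.S - 1 - r)) := by
    rw [aeval_cA, aeval_cB p (by omega) (by omega)]
    simp only [hG]
    ring
  rw [h4, PowerSeries.coeff_C_mul, abs_mul, abs_of_pos hq0]
  exact mul_le_mul_of_nonneg_left h hq0.le

end Pool.Agent.NLV
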