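import Pool.Agent.NLV.Bds

/-!
# NLV-SmallA (V5): the bound of `small` is less than 1

All factors are bounded by powers of `q` and `z`; `d = R + 1 - n l` satisfies `R + 2 ≤ 2 d`.
-/

namespace Pool.Agent.NLV

private lemma SmallA_real (q z g : ℝ) (R P Q S n l d d2 n2 : ℕ) (hq : 3 ≤ q) (hz : q ^ 1000 ≤ z)
    (hg0 : 0 ≤ g) (hg : g ≤ q ^ 2 * z ^ n) (hR : 66 ≤ R) (hP : P = 2 * R) (hQ : Q ≤ 43 * R)
    (hS : S ≤ 42 * R) (hS1 : 1 ≤ S) (hl : l ≤ R) (hd : R + 1 = d + n * l)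
    (hd2 : n2 = (S - 1) + n * l + d2) (hdd : d ≤ d2) (hdR : R + 2 ≤ 2 * d) :
    q ^ (2 * Q) * ((P : ℝ) * ((P : ℝ) * ((Q : ℝ) * q ^ (2 * Q))) *
      (8 * ((S : ℝ) + 1) * (4 / z) ^ (R + 1) + 2 * (z⁻¹) ^ n2 * (2 * z) ^ (S - 1)) *
        (2 * g) ^ l) < 1 := by
  have hq1 : (1 : ℝ) ≤ q := by linarith
  have hq0 : (0 : ℝ) < q := by linarith
  have hz1 : (1 : ℝ) ≤ z := (one_le_pow₀ hq1).trans hz
  have hz0 : (0 : ℝ) < z := by linarith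
  have hi0 : (0 : ℝ) < z⁻¹ := inv_pos.2 hz0
  have hi1 : z⁻¹ ≤ 1 := inv_le_one_of_one_le₀ hz1
  have hzi : z * z⁻¹ = 1 := mul_inv_cancel₀ hz0.ne'
  have hRq : (R : ℝ) ≤ q ^ R := by
    have h1 : (R : ℝ) ≤ 2 ^ R := by exact_mod_cast (Nat.lt_two_pow_self (n := R)).le
    exact h1.trans (pow_le_pow_left₀ (by norm_num) (by linarith) R)
  have hR0 : (0 : ℝ) ≤ R := Nat.cast_nonneg R
  have hx0 : (0 : ℝ) < q ^ R := pow_pos hq0 R
  -- the power of q in front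
  have hqq : q ^ (2 * Q) ≤ q ^ (86 * R) := pow_le_pow_right₀ hq1 (by omega)
  have hPr : (P : ℝ) = 2 * R := by rw [hP]; push_cast; ring
  have hQr : (Q : ℝ) ≤ 43 * R := by exact_mod_cast hQ
  have hSr : (S : ℝ) ≤ 42 * R := by exact_mod_cast hS
  have hc : (172 : ℝ) ≤ q ^ 5 := by
    have : (3 : ℝ) ^ 5 ≤ q ^ 5 := pow_le_pow_left₀ (by norm_num) hq 5
    linarith
  have hPPQ : (P : ℝ) * ((P : ℝ) * Q) ≤ q ^ (5 + 3 * R) := by
    have h1 : (P : ℝ) * ((P : ℝ) * Q) ≤ 172 * ((R : ℝ) * R * R) := by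
      rw [hPr]
      have h2 : (0 : ℝ) ≤ 4 * (R * R) := by positivity
      have h3 := mul_le_mul_of_nonneg_left hQr h2
      linarith
    have h4 : (R : ℝ) * R * R ≤ q ^ R * q ^ R * q ^ R :=
      mul_le_mul (mul_le_mul hRq hRq hR0 hx0.le) hRq hR0 (by positivity)
    have h5 : 172 * ((R : ℝ) * R * R) ≤ q ^ 5 * (q ^ R * q ^ R * q ^ R) :=
      mul_le_mul hc h4 (by positivity) (by positivity)
    have h6 : q ^ (5 + 3 * R) = q ^ 5 * (q ^ R * q ^ R * q ^ R) := by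
      rw [pow_add, mul_comm 3 R, pow_mul]; ring
    rw [h6]; exact h1.trans h5
  have hG : (2 * g) ^ l ≤ q ^ (3 * R) * z ^ (n * l) := by
    have h1 : 2 * g ≤ q ^ 3 * z ^ n := by
      have h2 : 2 * g ≤ 2 * (q ^ 2 * z ^ n) := by linarith
      have h3 : (2 : ℝ) * (q ^ 2 * z ^ n) ≤ q * (q ^ 2 * z ^ n) :=
        mul_le_mul_of_nonneg_right (by linarith) (by positivity)
      calc 2 * g ≤ 2 * (q ^ 2 * z ^ n) := h2
        _ ≤ q * (q ^ 2 * z ^ n) := h3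
        _ = q ^ 3 * z ^ n := by ring
    have h4 : (2 * g) ^ l ≤ (q ^ 3 * z ^ n) ^ l := pow_le_pow_left₀ (by linarith) h1 l
    have h5 : (q ^ 3 * z ^ n) ^ l = q ^ (3 * l) * z ^ (n * l) := by
      rw [mul_pow, ← pow_mul, ← pow_mul]
    rw [h5] at h4
    exact h4.trans (mul_le_mul_of_nonneg_right (pow_le_pow_right₀ hq1 (by omega))
      (by positivity))
  have hT1 : 8 * ((S : ℝ) + 1) * (4 / z) ^ (R + 1) * z ^ (n * l) ≤ q ^ (42 * R) * (z⁻¹) ^ d := by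
    have h1 : 8 * ((S : ℝ) + 1) ≤ q ^ 6 * q ^ R := by
      have h2 : (344 : ℝ) ≤ q ^ 6 := by
        have : (3 : ℝ) ^ 6 ≤ q ^ 6 := pow_le_pow_left₀ (by norm_num) hq 6
        linarith
      have h3 : (1 : ℝ) ≤ R := by exact_mod_cast (by omega : 1 ≤ R)
      have h4 : 8 * ((S : ℝ) + 1) ≤ 344 * R := by linarith
      exact h4.trans (mul_le_mul h2 hRq hR0 (by positivity))
    have h5 : (4 / z) ^ (R + 1) = 4 ^ (R + 1) * ((z⁻¹) ^ d * (z⁻¹) ^ (n * l)) := by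
      rw [div_eq_mul_inv, mul_pow, ← pow_add, ← hd]
    have h6 : (4 : ℝ) ^ (R + 1) ≤ q ^ (2 * (R + 1)) := by
      rw [pow_mul]
      exact pow_le_pow_left₀ (by norm_num) (by nlinarith) _
    have h7 : (z⁻¹) ^ (n * l) * z ^ (n * l) = 1 := by
      rw [← mul_pow, mul_comm, hzi, one_pow]
    have h8 : 8 * ((S : ℝ) + 1) * (4 / z) ^ (R + 1) * z ^ (n * l) =
        (8 * ((S : ℝ) + 1) * 4 ^ (R + 1)) * (z⁻¹) ^ d := by
      rw [h5]
      calc 8 * ((S : ℝ) + 1) * (4 ^ (R + 1) * ((z⁻¹) ^ d * (z⁻¹) ^ (n * l))) * z ^ (n * l)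
          = (8 * ((S : ℝ) + 1) * 4 ^ (R + 1)) * (z⁻¹) ^ d * ((z⁻¹) ^ (n * l) * z ^ (n * l)) := by
            ring
        _ = _ := by rw [h7, mul_one]
    rw [h8]
    apply mul_le_mul_of_nonneg_right _ (by positivity)
    have h9 : 8 * ((S : ℝ) + 1) * 4 ^ (R + 1) ≤ q ^ 6 * q ^ R * q ^ (2 * (R + 1)) :=
      mul_le_mul h1 h6 (by positivity) (by positivity)
    rw [← pow_add, ← pow_add] at h9
    exact h9.trans (pow_le_pow_right₀ hq1 (by omega))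
  have hT2 : 2 * (z⁻¹) ^ n2 * (2 * z) ^ (S - 1) * z ^ (n * l) ≤ q ^ (42 * R) * (z⁻¹) ^ d := by
    have h7 : (z⁻¹) ^ (n * l) * z ^ (n * l) = 1 := by
      rw [← mul_pow, mul_comm, hzi, one_pow]
    have h7' : (z⁻¹) ^ (S - 1) * z ^ (S - 1) = 1 := by
      rw [← mul_pow, mul_comm, hzi, one_pow]
    have h8 : 2 * (z⁻¹) ^ n2 * (2 * z) ^ (S - 1) * z ^ (n * l) = 2 ^ S * (z⁻¹) ^ d2 := by
      rw [hd2, pow_add, pow_add, mul_pow]
      have h9 : (2 : ℝ) ^ S = 2 * 2 ^ (S - 1) := by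
        rw [← pow_succ']; congr 1; omega
      rw [h9]
      calc 2 * ((z⁻¹) ^ (S - 1) * (z⁻¹) ^ (n * l) * (z⁻¹) ^ d2) * (2 ^ (S - 1) * z ^ (S - 1)) *
            z ^ (n * l)
          = 2 * 2 ^ (S - 1) * (z⁻¹) ^ d2 * ((z⁻¹) ^ (S - 1) * z ^ (S - 1)) *
            ((z⁻¹) ^ (n * l) * z ^ (n * l)) := by ring
        _ = _ := by rw [h7, h7', mul_one, mul_one]
    rw [h8]
    have h10 : (2 : ℝ) ^ S ≤ q ^ (42 * R) :=
      (pow_le_pow_left₀ (by norm_num) (by linarith) S).trans (pow_le_pow_right₀ hq1 hS)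
    exact mul_le_mul h10 (pow_le_pow_of_le_one hi0.le hi1 hdd) (by positivity) (by positivity)
  have hT0 : 0 ≤ 8 * ((S : ℝ) + 1) * (4 / z) ^ (R + 1) + 2 * (z⁻¹) ^ n2 * (2 * z) ^ (S - 1) := by
    positivity
  have hTG : (8 * ((S : ℝ) + 1) * (4 / z) ^ (R + 1) + 2 * (z⁻¹) ^ n2 * (2 * z) ^ (S - 1)) *
      (2 * g) ^ l ≤ q ^ (3 * R) * (2 * (q ^ (42 * R) * (z⁻¹) ^ d)) := by
    refine (mul_le_mul_of_nonneg_left hG hT0).trans ?_
    calc (8 * ((S : ℝ) + 1) * (4 / z) ^ (R + 1) + 2 * (z⁻¹) ^ n2 * (2 * z) ^ (S - 1)) *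
          (q ^ (3 * R) * z ^ (n * l))
        = q ^ (3 * R) * (8 * ((S : ℝ) + 1) * (4 / z) ^ (R + 1) * z ^ (n * l) +
            2 * (z⁻¹) ^ n2 * (2 * z) ^ (S - 1) * z ^ (n * l)) := by ring
      _ ≤ q ^ (3 * R) * (2 * (q ^ (42 * R) * (z⁻¹) ^ d)) := by
        apply mul_le_mul_of_nonneg_left _ (by positivity)
        linarith
  have hTG0 : 0 ≤ (8 * ((S : ℝ) + 1) * (4 / z) ^ (R + 1) +
      2 * (z⁻¹) ^ n2 * (2 * z) ^ (S - 1)) * (2 * g) ^ l := by positivity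
  have hmain : q ^ (2 * Q) * ((P : ℝ) * ((P : ℝ) * ((Q : ℝ) * q ^ (2 * Q))) *
      (8 * ((S : ℝ) + 1) * (4 / z) ^ (R + 1) + 2 * (z⁻¹) ^ n2 * (2 * z) ^ (S - 1)) *
        (2 * g) ^ l) ≤
      (q ^ (86 * R) * q ^ (86 * R) * q ^ (5 + 3 * R)) *
        (q ^ (3 * R) * (2 * (q ^ (42 * R) * (z⁻¹) ^ d))) := by
    calc q ^ (2 * Q) * ((P : ℝ) * ((P : ℝ) * ((Q : ℝ) * q ^ (2 * Q))) *
      (8 * ((S : ℝ) + 1) * (4 / z) ^ (R + 1) + 2 * (z⁻¹) ^ n2 * (2 * z) ^ (S - 1)) *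
        (2 * g) ^ l)
        = (q ^ (2 * Q) * q ^ (2 * Q) * ((P : ℝ) * ((P : ℝ) * Q))) *
          ((8 * ((S : ℝ) + 1) * (4 / z) ^ (R + 1) + 2 * (z⁻¹) ^ n2 * (2 * z) ^ (S - 1)) *
            (2 * g) ^ l) := by ring
      _ ≤ _ := by
        refine mul_le_mul ?_ hTG hTG0 (by positivity)
        exact mul_le_mul (mul_le_mul hqq hqq (by positivity) (by positivity)) hPPQ
          (by positivity) (by positivity)
  refine hmain.trans_lt ?_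
  have h1 : (q ^ (86 * R) * q ^ (86 * R) * q ^ (5 + 3 * R)) *
        (q ^ (3 * R) * (2 * (q ^ (42 * R) * (z⁻¹) ^ d))) =
      2 * q ^ (86 * R + 86 * R + (5 + 3 * R) + 3 * R + 42 * R) * (z⁻¹) ^ d := by
    rw [pow_add, pow_add, pow_add, pow_add]; ring
  rw [h1]
  have h2 : 2 * q ^ (86 * R + 86 * R + (5 + 3 * R) + 3 * R + 42 * R) < z ^ d := by
    have h3 : q ^ (1000 * d) ≤ z ^ d := by
      rw [pow_mul]; exact pow_le_pow_left₀ (by positivity) hz d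
    refine lt_of_lt_of_le ?_ h3
    have h4 : 2 * q ^ (86 * R + 86 * R + (5 + 3 * R) + 3 * R + 42 * R) <
        q * q ^ (86 * R + 86 * R + (5 + 3 * R) + 3 * R + 42 * R) :=
      mul_lt_mul_of_pos_right (by linarith) (by positivity)
    refine h4.trans_le ?_
    rw [← pow_succ']
    exact pow_le_pow_right₀ hq1 (by omega)
  have h5 : z ^ d * (z⁻¹) ^ d = 1 := by
    rw [← mul_pow, hzi, one_pow]
  calc 2 * q ^ (86 * R + 86 * R + (5 + 3 * R) + 3 * R + 42 * R) * (z⁻¹) ^ d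
      < z ^ d * (z⁻¹) ^ d := mul_lt_mul_of_pos_right h2 (by positivity)
    _ = 1 := h5

theorem small_lt {p : VP} {n2 : ℕ} (hp : VGood p n2) {z : ℕ} (hz : p.q ^ 1000 ≤ z) {l : ℕ} (hl : l ≤ p.M) :
    (p.q : ℝ) ^ (2 * p.Q) * (p.P * (p.P * (p.Q * (p.q : ℝ) ^ (2 * p.Q))) * (8 * (p.S + 1) * (4 / (z : ℝ)) ^ (p.R + 1) +
        2 * ((z : ℝ)⁻¹) ^ n2 * (2 * (z : ℝ)) ^ (p.S - 1)) * (2 * ((gg p z : ℤ) : ℝ)) ^ l) < 1 := by
  obtain ⟨b1, b2, b3, b4, b5, b6, b7, b8⟩ := bounds hp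
  have hn := hp.hn
  have hq3 := hp.hq3
  have hnl : 2 * (p.n * l) ≤ p.R := by
    have h1 : p.n * l ≤ p.n * p.M := Nat.mul_le_mul_left _ hl
    have h2 : 2 * p.n * p.M = 2 * (p.n * p.M) := by ring
    omega
  have hlR : l ≤ p.R := by
    have h1 : l ≤ p.n * l := Nat.le_mul_of_pos_left l (by omega)
    omega
  have hS : p.S = 2 * p.R + p.J := rfl
  have hq : (3 : ℝ) ≤ p.q := by exact_mod_cast hq3
  have hz' : (p.q : ℝ) ^ 1000 ≤ z := by exact_mod_cast hz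
  have hz1 : (1 : ℝ) ≤ z := (one_le_pow₀ (by linarith)).trans hz'
  have hgg : ((gg p z : ℤ) : ℝ) = (p.q : ℝ) ^ 2 * ((z : ℝ) ^ p.n - 1) := by
    unfold gg
    push_cast
    ring
  have hzn : (1 : ℝ) ≤ (z : ℝ) ^ p.n := one_le_pow₀ hz1
  refine SmallA_real (p.q : ℝ) (z : ℝ) _ p.R p.P p.Q p.S p.n l (p.R + 1 - p.n * l)
    (n2 - (p.S - 1) - p.n * l) n2 hq hz' ?_ ?_ (by omega) rfl b4 b3 (by omega) hlR (by omega)
    (by omega) (by omega) (by omega)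
  · rw [hgg]
    exact mul_nonneg (by positivity) (by linarith)
  · rw [hgg]
    exact mul_le_mul_of_nonneg_left (by linarith) (by positivity)

end Pool.Agent.NLV
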