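import Mathlib

/-!
# NLV-Root (V3): a q-th root of `1 + q ^ 2 φ` in `ℤ⟦X⟧`

PLAN.  `A(x) = ∑ (2 ≤ j ≤ q) binom(q, j) q ^ (j-2) x ^ j`, `(1 + q x) ^ q = 1 + q ^ 2 x + q ^ 2 A(x)` (private `RungeE_A`, `RungeE_A_id` in
`Pool/Agent/NLE/RungeE.lean`, there for commutative rings; copy them).  The equation is `r + A(r) = φ`.  Iteration `r_0 = 0`,
`r_(k+1) = φ - A(r_k)` (as `RungeE_r`, now in `ℤ⟦X⟧`): `X ∣ r_k`, `X ^ (k+1) ∣ r_(k+1) - r_k` (`RungeE_r_dvd`, `RungeE_A_sub`, `RungeE_r_sub`).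
`r := mk (fun m => coeff m (r_(m+1)))`; then `X ^ (k+1) ∣ r - r_(k+1)` for every `k`, so `X ^ (k+1)` divides
`r + A(r) - φ = (r - r_(k+1)) + (A(r) - A(r_k))` (`X ^ k ∣ r - r_k`, hence `X ^ (k+1) ∣ A(r) - A(r_k)`), for every `k`.
-/

namespace Pool.Agent.NLV

private def Root_A {R : Type} [CommRing R] (q : ℕ) (x : R) : R :=
  ∑ i ∈ Finset.range (q - 1), (q.choose (i + 2) : R) * (q : R) ^ i * x ^ (i + 2)

private theorem Root_A_id {R : Type} [CommRing R] {q : ℕ} (hq : 2 ≤ q) (x : R) :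
    (1 + (q : R) * x) ^ q = 1 + (q : R) ^ 2 * x + (q : R) ^ 2 * Root_A q x := by
  obtain ⟨m, rfl⟩ := Nat.exists_eq_add_of_le' hq
  unfold Root_A
  rw [add_comm 1, add_pow, Finset.sum_range_succ', Finset.sum_range_succ', Finset.mul_sum]
  have h1 : m + 2 - 1 = m + 1 := rfl
  rw [h1]
  have h2 : ∀ i ∈ Finset.range (m + 1), (((m + 2 : ℕ) : R) * x) ^ (i + 1 + 1) * 1 ^ (m + 2 - (i + 1 + 1)) *
      ((m + 2).choose (i + 1 + 1) : R) = ((m + 2 : ℕ) : R) ^ 2 * (((m + 2).choose (i + 2) : R) *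
      ((m + 2 : ℕ) : R) ^ i * x ^ (i + 2)) := fun i _ => by
    rw [one_pow, mul_one]
    ring
  rw [Finset.sum_congr rfl h2]
  simp only [zero_add, pow_one, one_pow, mul_one, Nat.choose_one_right, pow_zero, Nat.choose_zero_right, Nat.cast_one]
  ring

private theorem Root_A_dvd (q : ℕ) {p : PowerSeries ℤ} (h : PowerSeries.X ∣ p) :
    PowerSeries.X ∣ Root_A q p := by
  unfold Root_A
  exact Finset.dvd_sum fun i _ => ((h.trans (dvd_pow_self p (by omega)))).mul_left _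

private theorem Root_A_sub (q : ℕ) {k : ℕ} {p p' : PowerSeries ℤ} (h : PowerSeries.X ∣ p)
    (h' : PowerSeries.X ∣ p') (hd : PowerSeries.X ^ k ∣ p - p') :
    PowerSeries.X ^ (k + 1) ∣ Root_A q p - Root_A q p' := by
  unfold Root_A
  rw [← Finset.sum_sub_distrib]
  refine Finset.dvd_sum fun i _ => ?_
  rw [← mul_sub]
  refine Dvd.dvd.mul_left ?_ _
  have h1 : p ^ (i + 2) - p' ^ (i + 2) = (p ^ (i + 1) - p' ^ (i + 1)) * p + (p - p') * p' ^ (i + 1) := by ring
  rw [h1, pow_succ]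
  refine dvd_add (mul_dvd_mul (hd.trans (sub_dvd_pow_sub_pow _ _ _)) h) (mul_dvd_mul hd ?_)
  exact h'.trans (dvd_pow_self p' (by omega))

private noncomputable def Root_r (q : ℕ) (φ : PowerSeries ℤ) : ℕ → PowerSeries ℤ
  | 0 => 0
  | k + 1 => φ - Root_A q (Root_r q φ k)

private theorem Root_r_dvd {φ : PowerSeries ℤ} (h : PowerSeries.X ∣ φ) (q k : ℕ) :
    PowerSeries.X ∣ Root_r q φ k := by
  cases k with
  | zero => exact dvd_zero _
  | succ k =>
    induction k with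
    | zero => exact dvd_sub h (Root_A_dvd q (dvd_zero _))
    | succ k ih => exact dvd_sub h (Root_A_dvd q ih)

private theorem Root_r_sub {φ : PowerSeries ℤ} (h : PowerSeries.X ∣ φ) (q k : ℕ) :
    PowerSeries.X ^ (k + 1) ∣ Root_r q φ (k + 1) - Root_r q φ k := by
  induction k with
  | zero =>
    rw [zero_add, pow_one]
    exact dvd_sub (Root_r_dvd h q 1) (Root_r_dvd h q 0)
  | succ k ih =>
    have h1 : Root_r q φ (k + 1 + 1) - Root_r q φ (k + 1) =
        -(Root_A q (Root_r q φ (k + 1)) - Root_A q (Root_r q φ k)) := by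
      show (φ - Root_A q (Root_r q φ (k + 1))) - (φ - Root_A q (Root_r q φ k)) = _
      ring
    rw [h1, dvd_neg]
    exact Root_A_sub q (Root_r_dvd h q _) (Root_r_dvd h q _) ih

private theorem Root_r_coeff {φ : PowerSeries ℤ} (h : PowerSeries.X ∣ φ) (q m j : ℕ) :
    PowerSeries.coeff m (Root_r q φ (m + j)) = PowerSeries.coeff m (Root_r q φ m) := by
  induction j with
  | zero => rfl
  | succ j ih =>
    have h1 := PowerSeries.X_pow_dvd_iff.1 (Root_r_sub h q (m + j)) m (by omega)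
    rw [map_sub, sub_eq_zero] at h1
    rw [← ih, ← h1]
    rfl

theorem root {q : ℕ} (hq : 2 ≤ q) (φ : PowerSeries ℤ) (hφ : PowerSeries.constantCoeff φ = 0) :
    ∃ r : PowerSeries ℤ, PowerSeries.constantCoeff r = 0 ∧
      (1 + (q : PowerSeries ℤ) * r) ^ q = 1 + (q : PowerSeries ℤ) ^ 2 * φ := by
  have hX : PowerSeries.X ∣ φ := PowerSeries.X_dvd_iff.2 hφ
  obtain ⟨r, hr⟩ : ∃ r : PowerSeries ℤ, ∀ m, PowerSeries.coeff m r =
      PowerSeries.coeff m (Root_r q φ m) :=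
    ⟨PowerSeries.mk fun m => PowerSeries.coeff m (Root_r q φ m), fun m => PowerSeries.coeff_mk _ _⟩
  have h0 : PowerSeries.constantCoeff r = 0 := by
    rw [← PowerSeries.coeff_zero_eq_constantCoeff_apply, hr 0]
    show PowerSeries.coeff 0 (0 : PowerSeries ℤ) = 0
    rw [map_zero]
  have hXr : PowerSeries.X ∣ r := PowerSeries.X_dvd_iff.2 h0
  have h1 : ∀ k, PowerSeries.X ^ k ∣ r - Root_r q φ k := by
    intro k
    rw [PowerSeries.X_pow_dvd_iff]
    intro m hm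
    obtain ⟨j, rfl⟩ := Nat.exists_eq_add_of_le hm.le
    rw [map_sub, Root_r_coeff hX, hr m, sub_self]
  have h2 : r + Root_A q r = φ := by
    rw [← sub_eq_zero]
    ext m
    rw [map_zero]
    have h3 : r + Root_A q r - φ = (r - Root_r q φ (m + 1)) +
        (Root_A q r - Root_A q (Root_r q φ m)) := by
      show _ = (r - (φ - Root_A q (Root_r q φ m))) + _
      ring
    have h4 : PowerSeries.X ^ (m + 1) ∣ r + Root_A q r - φ := by
      rw [h3]
      exact dvd_add (h1 (m + 1)) (Root_A_sub q hXr (Root_r_dvd hX q m) (h1 m))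
    exact PowerSeries.X_pow_dvd_iff.1 h4 m (Nat.lt_succ_self m)
  refine ⟨r, h0, ?_⟩
  rw [Root_A_id hq, ← h2]
  ring

end Pool.Agent.NLV
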