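import Pool.Agent.NLV.Defs
import Pool.Agent.NLV.Root

/-!
# NLV-Theta (V3): the series `Θ`

The set of the power series `1 + q ^ 2 φ` with `constantCoeff φ = 0` is closed under products, powers and
inverses; `Zt - 1`, `Zt ^ n - 1` are constants times such series, and `root` gives the `q`-th root.
-/

namespace Pool.Agent.NLV

open Finset Polynomial

/-- The series `1 + q ^ 2 φ`, `constantCoeff φ = 0`. -/
private def Theta_U (q : ℕ) (a : PowerSeries ℤ) : Prop :=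
  ∃ φ : PowerSeries ℤ, PowerSeries.constantCoeff φ = 0 ∧ a = 1 + (q : PowerSeries ℤ) ^ 2 * φ

private theorem Theta_one (q : ℕ) : Theta_U q 1 := ⟨0, by simp, by simp⟩

private theorem Theta_mul {q : ℕ} {a b : PowerSeries ℤ} (ha : Theta_U q a) (hb : Theta_U q b) :
    Theta_U q (a * b) := by
  obtain ⟨φ, h1, rfl⟩ := ha
  obtain ⟨ψ, h2, rfl⟩ := hb
  refine ⟨φ + ψ + (q : PowerSeries ℤ) ^ 2 * φ * ψ, ?_, ?_⟩
  · simp [h1, h2]
  · ring

private theorem Theta_pow {q : ℕ} {a : PowerSeries ℤ} (ha : Theta_U q a) (k : ℕ) :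
    Theta_U q (a ^ k) := by
  induction k with
  | zero => simpa using Theta_one q
  | succ k ih => rw [pow_succ]; exact Theta_mul ih ha

private theorem Theta_inv {q : ℕ} {a : PowerSeries ℤ} (ha : Theta_U q a) :
    ∃ b, Theta_U q b ∧ a * b = 1 := by
  obtain ⟨φ, h1, rfl⟩ := ha
  have hu : IsUnit (1 + (q : PowerSeries ℤ) ^ 2 * φ) := by
    rw [PowerSeries.isUnit_iff_constantCoeff]
    simp [h1]
  obtain ⟨b, hb⟩ := hu.exists_right_inv
  refine ⟨b, ⟨-(φ * b), ?_, ?_⟩, hb⟩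
  · simp [h1]
  · linear_combination hb

theorem theta (p : VP) (n2 : ℕ) (hq : 2 ≤ p.q) (z t : ℤ)
    (ht : t ^ p.q * (z - 1) ^ p.h = (z ^ n2 - 1) ^ p.e * (z ^ p.n - 1) ^ p.f) :
    ∃ Θ : PowerSeries ℤ, PowerSeries.constantCoeff Θ = 1 ∧ Eqn p n2 z t Θ := by
  classical
  set g : ℤ := gg p z with hg
  set r : ℤ := ∑ i ∈ range p.n, z ^ i with hr
  have hzr : z ^ p.n - 1 = (z - 1) * r := (mul_geom_sum z p.n).symm
  set w : PowerSeries ℤ := 1 - PowerSeries.C g * PowerSeries.X with hw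
  set S : PowerSeries ℤ := ∑ i ∈ range p.n, w ^ i with hS
  have hwS : w ^ p.n - 1 = (w - 1) * S := (mul_geom_sum w p.n).symm
  have hCq : (PowerSeries.C (p.q : ℤ) : PowerSeries ℤ) = (p.q : PowerSeries ℤ) := by simp
  have hg1 : g = (p.q : ℤ) ^ 2 * (z ^ p.n - 1) := rfl
  have hCg : (PowerSeries.C g : PowerSeries ℤ) =
      (p.q : PowerSeries ℤ) ^ 2 * (PowerSeries.C z ^ p.n - 1) := by
    rw [hg1]; simp
  have hCr : (PowerSeries.C z ^ p.n - 1 : PowerSeries ℤ) = (PowerSeries.C z - 1) * PowerSeries.C r := by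
    have h := congrArg (PowerSeries.C (R := ℤ)) hzr
    simpa using h
  set u1 : PowerSeries ℤ := 1 + (p.q : PowerSeries ℤ) ^ 2 *
    (-(PowerSeries.C z * PowerSeries.C r * PowerSeries.X)) with hu1
  set u2 : PowerSeries ℤ := 1 + (p.q : PowerSeries ℤ) ^ 2 *
    (-(PowerSeries.C z ^ p.n * PowerSeries.X * S)) with hu2
  have hU1 : Theta_U p.q u1 := ⟨_, by simp, hu1⟩
  have hU2 : Theta_U p.q u2 := ⟨_, by simp, hu2⟩
  have hU3 : Theta_U p.q w := by
    refine ⟨-((PowerSeries.C z ^ p.n - 1) * PowerSeries.X), by simp, ?_⟩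
    rw [hw, hCg]; ring
  have hZ : Zt ℤ z g = PowerSeries.C z * w := rfl
  have e1 : Zt ℤ z g - 1 = (PowerSeries.C z - 1) * u1 := by
    rw [hZ, hw, hCg, hCr, hu1]; ring
  have e2 : Zt ℤ z g ^ p.n - 1 = (PowerSeries.C z ^ p.n - 1) * u2 := by
    have hw1 : w - 1 = -(PowerSeries.C g * PowerSeries.X) := by rw [hw]; ring
    rw [hZ, mul_pow]
    have h3 : w ^ p.n = 1 + (w - 1) * S := by linear_combination hwS
    rw [h3, hw1, hCg, hu2]; ring
  obtain ⟨v, hv, huv⟩ := Theta_inv hU1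
  obtain ⟨φ, hφ, hE⟩ := Theta_mul (Theta_mul (Theta_pow hU3 (p.e * n2)) (Theta_pow hU2 p.f)) (Theta_pow hv p.h)
  obtain ⟨s, hs, hroot⟩ := root hq φ hφ
  refine ⟨1 + (p.q : PowerSeries ℤ) * s, by simp [hs], ?_⟩
  have ht' : (PowerSeries.C t ^ p.q * (PowerSeries.C z - 1) ^ p.h : PowerSeries ℤ) =
      (PowerSeries.C z ^ n2 - 1) ^ p.e * (PowerSeries.C z ^ p.n - 1) ^ p.f := by
    have h := congrArg (PowerSeries.C (R := ℤ)) ht
    simpa using h
  have huv' : u1 ^ p.h * v ^ p.h = 1 := by rw [← mul_pow, huv, one_pow]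
  unfold Eqn
  rw [← hg, e1, e2, mul_pow, mul_pow, hroot, ← hE, mul_pow, ← hw]
  have h5 : (PowerSeries.C ((z ^ n2 - 1) ^ p.e) : PowerSeries ℤ) = (PowerSeries.C z ^ n2 - 1) ^ p.e := by simp
  rw [h5]
  calc PowerSeries.C t ^ p.q * (w ^ (p.e * n2) * u2 ^ p.f * v ^ p.h) * ((PowerSeries.C z - 1) ^ p.h * u1 ^ p.h)
      = (PowerSeries.C t ^ p.q * (PowerSeries.C z - 1) ^ p.h) * (w ^ (p.e * n2) * u2 ^ p.f) * (u1 ^ p.h * v ^ p.h) := by ring
    _ = (PowerSeries.C z ^ n2 - 1) ^ p.e * w ^ (p.e * n2) * ((PowerSeries.C z ^ p.n - 1) ^ p.f * u2 ^ p.f) := by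
        rw [ht', huv']; ring

end Pool.Agent.NLV
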