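import Pool.Agent.NLV.Siegel
import Pool.Agent.NLV.Theta
import Pool.Agent.NLV.Comp
import Pool.Agent.NLV.Small
import Pool.Agent.NLV.SmallA
import Pool.Agent.NLV.Elim
import Pool.Agent.NLV.NNz
import Pool.Agent.NLV.NBd
import Pool.Agent.NLV.Low
import Pool.Agent.NLV.Arith

/-!
# NLV-Main: the one-variable block of Theorem F
-/

namespace Pool.Agent.NLV

open Finset Polynomial

theorem main_vp {p : VP} {n2 : ℕ} (hp : VGood p n2) {z t : ℕ} (hz : p.q ^ (3000 * p.n) ≤ z)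
    (ht : (t : ℤ) ^ p.q * ((z : ℤ) - 1) ^ p.h = ((z : ℤ) ^ n2 - 1) ^ p.e * ((z : ℤ) ^ p.n - 1) ^ p.f) : False := by
  obtain ⟨b1, b2, b3, b4, b5, b6, b7, b8⟩ := bounds hp
  have hq3 := hp.hq3
  have hn2 := hp.hn
  have e1000 : 1000 ≤ 3000 * p.n := by omega
  have q1 : 0 < p.q := by omega
  have hz1000 : p.q ^ 1000 ≤ z := (Nat.pow_le_pow_right q1 e1000).trans hz
  have hz16 : 16 ≤ z := by
    refine le_trans ?_ hz1000
    calc 16 ≤ 3 ^ 3 := by norm_num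
      _ ≤ p.q ^ 3 := Nat.pow_le_pow_left hq3 _
      _ ≤ p.q ^ 1000 := Nat.pow_le_pow_right q1 (by norm_num)
  have hzZ : (2 : ℤ) ≤ (z : ℤ) := by exact_mod_cast (by omega : 2 ≤ z)
  have hzR : (16 : ℝ) ≤ (z : ℝ) := by exact_mod_cast hz16
  have ht0 : (t : ℤ) ≠ 0 := by
    intro h0
    rw [h0, zero_pow (by omega), zero_mul] at ht
    have h3 : ∀ k : ℕ, 1 ≤ k → (z : ℤ) ^ k - 1 ≠ 0 := by
      intro k hk h4
      have h5 : (z : ℤ) ≤ (z : ℤ) ^ k := le_self_pow₀ (by omega) (by omega)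
      omega
    have h6 := hp.hn2
    exact (mul_ne_zero (pow_ne_zero _ (h3 n2 (by omega))) (pow_ne_zero _ (h3 p.n (by omega)))) ht.symm
  have hg0 : (0 : ℤ) ≤ gg p z := by
    unfold gg
    have h5 : (1 : ℤ) ≤ (z : ℤ) ^ p.n := one_le_pow₀ (by omega)
    exact mul_nonneg (by positivity) (by omega)
  have hgR : (0 : ℝ) ≤ ((gg p z : ℤ) : ℝ) := by exact_mod_cast hg0
  obtain ⟨A, hA1, hA2, hA3⟩ := siegel1 p (by omega) (by omega) b6 (by omega)
  obtain ⟨Θ, hΘ1, hΘ2⟩ := theta p n2 (by omega) z t ht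
  have htn : 0 < t := by
    have : t ≠ 0 := by exact_mod_cast ht0
    omega
  obtain ⟨κ, hκ0, hκ1, hκ3, hκ2⟩ := compare hp hz16 htn Θ hΘ1 hΘ2
  have hA2R : ∀ i, |(A i : ℝ)| ≤ p.P * (p.Q * (p.q : ℝ) ^ (2 * p.Q)) := by
    intro i
    exact_mod_cast hA2 i
  have hv : ∀ l ≤ p.M, PowerSeries.coeff l (Wt z (gg p z) t (cA p A) (cB p A) Θ) = 0 := by
    intro l hl
    have h1 := small hp hzR hgR A hA2R hA3 hκ0 hκ1 hκ3 l
    have h2 := h1.trans_lt (small_lt hp hz1000 hl)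
    have h3 : PowerSeries.map (Int.castRingHom ℝ) (Wt z (gg p z) t (cA p A) (cB p A) Θ) =
        PowerSeries.C κ * (NLF.Zr z (gg p z : ℤ) ^ p.J * NLF.ev z (gg p z : ℤ) (psi p)) *
          aeval (NLF.Zr z (gg p z : ℤ)) (cA p A) - aeval (NLF.Zr z (gg p z : ℤ)) (cB p A) := by
      have hZ := Zt_map z (gg p z)
      have e2 : (((z : ℕ) : ℤ) : ℝ) = (z : ℝ) := by simp
      rw [e2] at hZ
      have hF : ∀ F : ℤ[X], PowerSeries.map (Int.castRingHom ℝ) (aeval (Zt ℤ z (gg p z)) F) =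
          aeval (NLF.Zr (z : ℝ) ((gg p z : ℤ) : ℝ)) F := by
        intro F
        rw [← hZ, aeval_def, aeval_def, hom_eval₂]
        congr 1
      unfold Wt
      rw [map_sub, map_mul, map_mul, hF, hF, PowerSeries.map_C]
      rw [← hκ2]
      have e : (Int.castRingHom ℝ) ((t : ℕ) : ℤ) = (t : ℝ) := by simp
      rw [e]
      ring
    have h4 : |((PowerSeries.coeff l (Wt z (gg p z) t (cA p A) (cB p A) Θ) : ℤ) : ℝ)| < 1 := by
      have h5 : ((PowerSeries.coeff l (Wt z (gg p z) t (cA p A) (cB p A) Θ) : ℤ) : ℝ) =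
          PowerSeries.coeff l (PowerSeries.map (Int.castRingHom ℝ) (Wt z (gg p z) t (cA p A) (cB p A) Θ)) := by
        rw [PowerSeries.coeff_map]
        rfl
      rw [h5, h3]
      exact h2
    have h6 : |PowerSeries.coeff l (Wt z (gg p z) t (cA p A) (cB p A) Θ)| < 1 := by exact_mod_cast h4
    exact Int.abs_lt_one_iff.1 h6
  have hdvd := elim1 hp hzZ ht0 (cA p A) (cB p A) Θ hΘ1 hΘ2 hv
  have hq1 := hp.hq
  have hf1 := hp.hf
  have heq : p.e < p.q := by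
    have : p.h = p.e + p.f := rfl
    omega
  have hN := NV_ne_zero p (by omega) hp.he heq (cA_ne_zero p (by omega) A hA1) (cB_ne_zero p (by omega) A hA1)
  have h7 := pow_le_nrm1 (by omega : (1 : ℤ) ≤ z) hN hdvd
  have h8 := nrm1_NV p (by omega) (by omega) b6 A hA2
  have h9 := arith1 hp (by exact_mod_cast hz : ((p.q ^ (3000 * p.n) : ℕ) : ℤ) ≤ (z : ℤ))
  exact absurd (h7.trans h8) (not_le.2 h9)

end Pool.Agent.NLV
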