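import Pool.Agent.NLV.Coef

/-!
# NLV-Siegel (V2): the auxiliary form, and the numbers `g_r`

PLAN.  `siegel1`: `P = 2 R` unknowns `A_i` (`Fin P`), `R` equations `gZ p A (S + r') = 0` (`Fin R`, `S + R = Q`).  Matrix entry =
the factor of `A i` in `gZ`: at most `(r - i + 1) q ^ (2 Q) ≤ Q q ^ (2 Q)` in absolute value (`abs_cZ_le`, `r - i < Q`, the exponents
add up to `2 Q`).  Copy the private theorem `Siegel_vec` of `Pool/Agent/NLF/Siegel.lean` and the end of the proof of `siegel` there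
(here the one-variable case: `A i := if h : i < P then t ⟨i, h⟩ else 0`).
`cA_ne_zero`: the coefficient of `Z ^ (P-1-i)` is `q ^ (2 Q) A_i`.  `cB_ne_zero`: let `i0` be the first index with `A_i0 ≠ 0`
(`Nat.find`), `i0 < P ≤ S`; the coefficient of `Z ^ (S-1-i0)` in `cB` is `gZ p A i0 = A_i0 cZ 0 q ^ (2 Q) ≠ 0`.
`gZ_cast`: termwise by `cZ_cast`, `2 (r - i) + 2 (Q - (r - i)) = 2 Q` for `r < Q`.  `abs_gR_le`, `abs_gZ_le`: triangle inequality.
-/

namespace Pool.Agent.NLV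

open Finset Polynomial
open Pool.Agent.NLG (KZ kap)

attribute [local instance] Matrix.seminormedAddCommGroup

private theorem SiegelV_vec {α β : Type} [Fintype α] [Fintype β] (A : Matrix α β ℤ)
    (hlt : Fintype.card α < Fintype.card β) (h0 : 0 < Fintype.card α)
    (h : 2 * Fintype.card α ≤ Fintype.card β) (M : ℝ) (hM : 1 ≤ M)
    (hA : ∀ i j, |(A i j : ℝ)| ≤ M) :
    ∃ t : β → ℤ, t ≠ 0 ∧ A.mulVec t = 0 ∧ ∀ j, |(t j : ℝ)| ≤ (Fintype.card β : ℝ) * M := by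
  obtain ⟨t, ht0, ht1, ht2⟩ := Int.Matrix.exists_ne_zero_int_vec_norm_le A hlt h0
  refine ⟨t, ht0, ht1, fun j => ?_⟩
  have hβ : (1 : ℝ) ≤ Fintype.card β := by exact_mod_cast (h0.trans hlt)
  have hAn : ‖A‖ ≤ M := by
    rw [Matrix.norm_le_iff (by linarith)]
    intro i j
    rw [Int.norm_eq_abs]
    exact hA i j
  have hmax : max 1 ‖A‖ ≤ M := max_le hM hAn
  have hb1 : (1 : ℝ) ≤ Fintype.card β * max 1 ‖A‖ := by nlinarith [le_max_left (1 : ℝ) ‖A‖]
  have hlt' : (Fintype.card α : ℝ) < Fintype.card β := by exact_mod_cast hlt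
  have h' : 2 * (Fintype.card α : ℝ) ≤ Fintype.card β := by exact_mod_cast h
  have hexp : (Fintype.card α : ℝ) / (Fintype.card β - Fintype.card α) ≤ 1 := by
    rw [div_le_iff₀ (by linarith)]
    linarith
  have h4 := norm_le_pi_norm t j
  rw [Int.norm_eq_abs] at h4
  calc |(t j : ℝ)| ≤ ‖t‖ := h4
    _ ≤ _ := ht2
    _ ≤ ((Fintype.card β : ℝ) * max 1 ‖A‖) ^ (1 : ℝ) := Real.rpow_le_rpow_of_exponent_le hb1 hexp
    _ = (Fintype.card β : ℝ) * max 1 ‖A‖ := Real.rpow_one _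
    _ ≤ _ := mul_le_mul_of_nonneg_left hmax (by linarith)

/-- the matrix entry -/
private noncomputable def SiegelV_m (p : VP) (r i : ℕ) : ℤ :=
  if i ≤ r then cZ p (r - i) * (p.q : ℤ) ^ (2 * (p.Q - (r - i))) else 0

private theorem SiegelV_gZ (p : VP) (A : ℕ → ℤ) (r : ℕ) :
    gZ p A r = ∑ i ∈ range p.P, SiegelV_m p r i * A i := by
  unfold gZ
  refine Finset.sum_congr rfl fun i _ => ?_
  unfold SiegelV_m
  split_ifs
  · ring
  · rw [zero_mul]

private theorem SiegelV_le (p : VP) (hq : 1 ≤ p.q) (hn : 1 ≤ p.n) (hh : p.h ≤ p.q)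
    (r i : ℕ) (hr : r < p.Q) :
    |SiegelV_m p r i| ≤ p.Q * (p.q : ℤ) ^ (2 * p.Q) := by
  have hq0 : (0 : ℤ) < p.q := by exact_mod_cast hq
  unfold SiegelV_m
  split_ifs with hc
  · obtain ⟨a, ha⟩ : ∃ a, a = r - i := ⟨_, rfl⟩
    rw [← ha]
    have h2 := abs_cZ_le p hq hn hh a
    have h3 : ((a : ℤ) + 1) ≤ p.Q := by
      have : a + 1 ≤ p.Q := by omega
      exact_mod_cast this
    have h4 : (0 : ℤ) ≤ (p.q : ℤ) ^ (2 * (p.Q - a)) := (pow_pos hq0 _).le
    rw [abs_mul, abs_of_nonneg h4]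
    calc |cZ p a| * (p.q : ℤ) ^ (2 * (p.Q - a))
        ≤ ((a + 1) * (p.q : ℤ) ^ (2 * a)) * (p.q : ℤ) ^ (2 * (p.Q - a)) :=
          mul_le_mul_of_nonneg_right h2 h4
      _ = (a + 1) * (p.q : ℤ) ^ (2 * p.Q) := by
          rw [mul_assoc, ← pow_add]
          congr 2
          omega
      _ ≤ p.Q * (p.q : ℤ) ^ (2 * p.Q) := mul_le_mul_of_nonneg_right h3 (pow_pos hq0 _).le
  · rw [abs_zero]
    positivity

private theorem SiegelV_coeff {N : ℕ} (c : ℕ → ℤ) {i : ℕ} (hi : i < N) :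
    (∑ j ∈ range N, monomial (N - 1 - j) (c j) : ℤ[X]).coeff (N - 1 - i) = c i := by
  rw [finsetSum_coeff, Finset.sum_eq_single i]
  · rw [coeff_monomial, if_pos rfl]
  · intro j hj hji
    have h1 := Finset.mem_range.1 hj
    rw [coeff_monomial, if_neg]
    omega
  · intro h
    exact absurd (Finset.mem_range.2 hi) h

theorem siegel1 (p : VP) (hq : 1 ≤ p.q) (hn : 1 ≤ p.n) (hh : p.h ≤ p.q) (hR : 1 ≤ p.R) :
    ∃ A : ℕ → ℤ, (∃ i < p.P, A i ≠ 0) ∧ (∀ i, |A i| ≤ p.P * (p.Q * (p.q : ℤ) ^ (2 * p.Q))) ∧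
      ∀ r, p.S ≤ r → r < p.Q → gZ p A r = 0 := by
  have hE : 0 < p.R := hR
  have hP : p.P = 2 * p.R := rfl
  have hQ : p.Q = p.S + p.R := rfl
  have hq1 : (1 : ℝ) ≤ p.q := by exact_mod_cast hq
  have hQ1 : (1 : ℝ) ≤ p.Q := by
    have : 1 ≤ p.Q := by omega
    exact_mod_cast this
  obtain ⟨t, ht0, ht1, ht2⟩ := SiegelV_vec (α := Fin p.R) (β := Fin p.P)
    (Matrix.of fun v u => SiegelV_m p (p.S + v) u)
    (by
      rw [Fintype.card_fin, Fintype.card_fin]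
      omega)
    (by
      rw [Fintype.card_fin]
      exact hE)
    (by
      rw [Fintype.card_fin, Fintype.card_fin]
      omega)
    ((p.Q : ℝ) * (p.q : ℝ) ^ (2 * p.Q))
    (one_le_mul_of_one_le_of_one_le hQ1 (one_le_pow₀ hq1))
    (fun v u => by
      have h2 := SiegelV_le p hq hn hh (p.S + v) u (by
        have := v.2
        omega)
      rw [Matrix.of_apply]
      exact_mod_cast h2)
  obtain ⟨A, hA⟩ : ∃ A : ℕ → ℤ, A = fun i =>
      if h : i < p.P then t ⟨i, h⟩ else 0 := ⟨_, rfl⟩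
  have hA1 : ∀ i : Fin p.P, A i = t i := by
    intro i
    rw [hA]
    exact dif_pos i.2
  refine ⟨A, ?_, ?_, ?_⟩
  · obtain ⟨u, hu⟩ := Function.ne_iff.1 ht0
    refine ⟨u, u.2, ?_⟩
    rw [hA1]
    exact hu
  · intro i
    by_cases h : i < p.P
    · have h2 := ht2 ⟨i, h⟩
      rw [Fintype.card_fin] at h2
      rw [hA]
      simp only [dif_pos h]
      exact_mod_cast h2
    · rw [hA]
      simp only [dif_neg h, abs_zero]
      positivity
  · intro r hr hr'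
    obtain ⟨s, rfl⟩ := Nat.exists_eq_add_of_le hr
    have h2 := congrFun ht1 ⟨s, by omega⟩
    have h3 : ∑ u : Fin p.P, SiegelV_m p (p.S + s) u * t u = 0 := h2
    rw [SiegelV_gZ, Finset.sum_range (fun i => SiegelV_m p (p.S + s) i * A i)]
    rw [← h3]
    refine Finset.sum_congr rfl fun i _ => ?_
    rw [hA1]

theorem cA_ne_zero (p : VP) (hq : 1 ≤ p.q) (A : ℕ → ℤ) (hA : ∃ i < p.P, A i ≠ 0) : cA p A ≠ 0 := by
  obtain ⟨i, hi, hAi⟩ := hA
  intro h0
  have h1 : (cA p A).coeff (p.P - 1 - i) = (p.q : ℤ) ^ (2 * p.Q) * A i :=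
    SiegelV_coeff (fun i => (p.q : ℤ) ^ (2 * p.Q) * A i) hi
  rw [h0, coeff_zero] at h1
  have hq0 : (0 : ℤ) < p.q := by exact_mod_cast hq
  exact mul_ne_zero (pow_pos hq0 _).ne' hAi h1.symm

theorem cB_ne_zero (p : VP) (hq : 1 ≤ p.q) (A : ℕ → ℤ) (hA : ∃ i < p.P, A i ≠ 0) : cB p A ≠ 0 := by
  classical
  have hex : ∃ i, A i ≠ 0 := by
    obtain ⟨i, -, hi⟩ := hA
    exact ⟨i, hi⟩
  obtain ⟨i0, hi0⟩ : ∃ i0, i0 = Nat.find hex := ⟨_, rfl⟩
  have hA0 : A i0 ≠ 0 := by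
    rw [hi0]
    exact Nat.find_spec hex
  have hmin : ∀ i, i < i0 → A i = 0 := by
    intro i hi
    by_contra hne
    rw [hi0] at hi
    exact Nat.find_min hex hi hne
  have hiP : i0 < p.P := by
    obtain ⟨i, hi, hne⟩ := hA
    by_contra hcon
    exact hne (hmin i (by omega))
  have hS : p.S = p.P + p.J := rfl
  have hg : gZ p A i0 = A i0 * (p.q : ℤ) ^ (2 * p.Q) := by
    unfold gZ
    rw [Finset.sum_eq_single i0]
    · rw [if_pos le_rfl, Nat.sub_self, cZ_zero p hq, mul_one, Nat.sub_zero]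
    · intro i _ hne
      split_ifs with hle
      · rw [hmin i (by omega), zero_mul, zero_mul]
      · rfl
    · intro h
      exact absurd (Finset.mem_range.2 hiP) h
  intro h0
  have h1 : (cB p A).coeff (p.S - 1 - i0) = gZ p A i0 :=
    SiegelV_coeff (fun r => gZ p A r) (by omega)
  rw [h0, coeff_zero, hg] at h1
  have hq0 : (0 : ℤ) < p.q := by exact_mod_cast hq
  exact mul_ne_zero hA0 (pow_pos hq0 _).ne' h1.symm

end Pool.Agent.NLV
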